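import Mathlib

/-!
# Monster potentials

Definitions: trivial monodromy, the potentials `x² + (β² - 1/4) / x² - 2 (ln P(x⁴))''`, and the
number of monster potentials.
-/

namespace Pool.Agent.W99.Mon

/-- The punctured disc of radius `r` about `x₀`. -/
def punct (x₀ : ℂ) (r : ℝ) : Set ℂ := {z | 0 < ‖z - x₀‖ ∧ ‖z - x₀‖ < r}

/-- For every `E`, every solution of `-ψ'' + V ψ = E ψ` near `x₀` has trivial monodromy around
`x₀`: in some punctured disc about `x₀` every local solution, given by its initial values at an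
arbitrary point of the punctured disc, extends to a single-valued holomorphic solution on the
punctured disc. -/
def TrivialMonodromy (V : ℂ → ℂ) (x₀ : ℂ) : Prop :=
  ∀ E : ℂ, ∃ r : ℝ, 0 < r ∧ ∀ x₁ ∈ punct x₀ r, ∀ a b : ℂ, ∃ ψ : ℂ → ℂ,
    DifferentiableOn ℂ ψ (punct x₀ r) ∧
    (∀ z ∈ punct x₀ r, -deriv (deriv ψ) z + V z * ψ z = E * ψ z) ∧ ψ x₁ = a ∧ deriv ψ x₁ = b

/-- The potential `x² + (β² - 1/4) / x² - 2 (ln P(x⁴))''`; here `(ln f)'' = (f' / f)'`. -/
noncomputable def potential (β : ℂ) (P : Polynomial ℂ) (x : ℂ) : ℂ :=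
  x ^ 2 + (β ^ 2 - 1 / 4) / x ^ 2 - 2 * deriv (logDeriv fun y : ℂ => P.eval (y ^ 4)) x

/-- `P` gives a monster potential of momentum `β`: for all `E`, all solutions have trivial
monodromy around every pole `x₀` of `(ln P(x⁴))''`, that is around every zero `x₀` of `P(x⁴)`. -/
def IsMonster (β : ℂ) (P : Polynomial ℂ) : Prop :=
  ∀ x₀ : ℂ, P.eval (x₀ ^ 4) = 0 → TrivialMonodromy (potential β P) x₀

/-- `N_n(β)`: the number of monic polynomials of degree `n` which give monster potentials of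
momentum `β`. -/
noncomputable def numMonster (β : ℂ) (n : ℕ) : ℕ∞ :=
  Set.encard {P : Polynomial ℂ | P.Monic ∧ P.natDegree = n ∧ IsMonster β P}

end Pool.Agent.W99.Mon
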