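import Mathlib
import Pool.Agent.W99.Mon.Defs

/-!
# Single-valued solutions near a regular singular point are meromorphic
-/

namespace Pool.Agent.W99.Mon

open Filter Topology Set

theorem punct_isOpen (x₀ : ℂ) (r : ℝ) : IsOpen (punct x₀ r) := by
  unfold punct
  apply IsOpen.inter
  · exact isOpen_lt continuous_const (continuous_norm.comp (continuous_id.sub continuous_const))
  · exact isOpen_lt (continuous_norm.comp (continuous_id.sub continuous_const)) continuous_const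

theorem punct_mono {x₀ : ℂ} {r s : ℝ} (h : r ≤ s) : punct x₀ r ⊆ punct x₀ s :=
  fun _ hz => ⟨hz.1, hz.2.trans_le h⟩

theorem differentiableAt_of {ψ : ℂ → ℂ} {x₀ : ℂ} {r : ℝ} (h : DifferentiableOn ℂ ψ (punct x₀ r))
    {z : ℂ} (hz : z ∈ punct x₀ r) : DifferentiableAt ℂ ψ z :=
  h.differentiableAt ((punct_isOpen x₀ r).mem_nhds hz)

theorem deriv_differentiableAt {ψ : ℂ → ℂ} {x₀ : ℂ} {r : ℝ}
    (h : DifferentiableOn ℂ ψ (punct x₀ r))
    {z : ℂ} (hz : z ∈ punct x₀ r) : DifferentiableAt ℂ (deriv ψ) z :=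
  (h.deriv (punct_isOpen x₀ r)).differentiableAt ((punct_isOpen x₀ r).mem_nhds hz)

/-- The estimate along rays. -/
theorem ray_bound {ψ q w : ℂ → ℂ} {x₀ κ : ℂ} {r B : ℝ} (hB : 0 ≤ B)
    (hψ : DifferentiableOn ℂ ψ (punct x₀ r))
    (hode : ∀ z ∈ punct x₀ r, deriv (deriv ψ) z = q z * ψ z)
    (hq : ∀ z ∈ punct x₀ r, q z = κ / (z - x₀) ^ 2 + w z)
    (hw : ∀ z ∈ punct x₀ r, ‖w z‖ ≤ B) {ρ : ℝ} (hρ : 0 < ρ) (hρr : ρ < r)
    {ζ : ℂ} (hζ : ‖ζ - x₀‖ = ρ) (t : ℝ) (ht : 0 ≤ t) :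
    ‖ψ (x₀ + (ζ - x₀) * (Real.exp (-t) : ℂ))‖ ≤
      max ‖ψ ζ‖ (ρ * ‖deriv ψ ζ‖) * Real.exp ((1 + ‖κ‖ + ρ ^ 2 * B) * t) := by
  set z : ℝ → ℂ := fun s => x₀ + (ζ - x₀) * (Real.exp (-s) : ℂ) with hz
  have hzsub : ∀ s, z s - x₀ = (ζ - x₀) * (Real.exp (-s) : ℂ) := fun s => by simp [hz]
  have hznorm : ∀ s, ‖z s - x₀‖ = ρ * Real.exp (-s) := by
    intro s
    rw [hzsub, norm_mul, hζ, Complex.norm_real, Real.norm_eq_abs, abs_of_pos (Real.exp_pos _)]
  have hzmem : ∀ s, 0 ≤ s → z s ∈ punct x₀ r := by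
    intro s hs
    refine ⟨?_, ?_⟩
    · rw [hznorm]; positivity
    · rw [hznorm]
      have : Real.exp (-s) ≤ 1 := Real.exp_le_one_iff.2 (by linarith)
      nlinarith [Real.exp_pos (-s)]
  have hzd : ∀ s, HasDerivAt z (-(z s - x₀)) s := by
    intro s
    have h1 : HasDerivAt (fun s : ℝ => ((Real.exp (-s) : ℝ) : ℂ)) ((-Real.exp (-s) : ℝ) : ℂ) s := by
      have h2 : HasDerivAt (fun s : ℝ => Real.exp (-s)) (-Real.exp (-s)) s := by
        have := (Real.hasDerivAt_exp (-s)).comp s (hasDerivAt_neg s)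
        simpa [Function.comp_def] using this
      exact h2.ofReal_comp
    have h3 := (h1.const_mul (ζ - x₀)).const_add x₀
    refine h3.congr_deriv ?_
    rw [hzsub]
    push_cast
    ring
  set Y : ℝ → ℂ × ℂ := fun s => (ψ (z s), (z s - x₀) * deriv ψ (z s)) with hY
  set Y' : ℝ → ℂ × ℂ := fun s => (deriv ψ (z s) * (-(z s - x₀)),
    (-(z s - x₀)) * deriv ψ (z s) + (z s - x₀) * (deriv (deriv ψ) (z s) * (-(z s - x₀)))) with hY'
  have hYd : ∀ s, 0 ≤ s → HasDerivAt Y (Y' s) s := by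
    intro s hs
    have h1 : HasDerivAt (fun s => ψ (z s)) (deriv ψ (z s) * (-(z s - x₀))) s :=
      (differentiableAt_of hψ (hzmem s hs)).hasDerivAt.comp s (hzd s)
    have h2 : HasDerivAt (fun s => deriv ψ (z s)) (deriv (deriv ψ) (z s) * (-(z s - x₀))) s :=
      (deriv_differentiableAt hψ (hzmem s hs)).hasDerivAt.comp s (hzd s)
    have h3 : HasDerivAt (fun s => z s - x₀) (-(z s - x₀)) s := (hzd s).sub_const x₀
    exact h1.prodMk (h3.mul h2)
  have hbd : ∀ s, 0 ≤ s → ‖Y' s‖ ≤ (1 + ‖κ‖ + ρ ^ 2 * B) * ‖Y s‖ + 0 := by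
    intro s hs
    rw [add_zero]
    have hY1 : ‖ψ (z s)‖ ≤ ‖Y s‖ := norm_fst_le (Y s)
    have hY2 : ‖(z s - x₀) * deriv ψ (z s)‖ ≤ ‖Y s‖ := norm_snd_le (Y s)
    have hm := hzmem s hs
    have hne : z s - x₀ ≠ 0 := norm_pos_iff.1 hm.1
    have e2 : (z s - x₀) * (deriv (deriv ψ) (z s) * (-(z s - x₀))) =
        -((κ + (z s - x₀) ^ 2 * w (z s)) * ψ (z s)) := by
      rw [hode _ hm, hq _ hm]
      field_simp
    have hw1 : ‖(z s - x₀) ^ 2 * w (z s)‖ ≤ ρ ^ 2 * B := by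
      rw [norm_mul, norm_pow]
      have h1 : ‖z s - x₀‖ ≤ ρ := by
        rw [hznorm]
        have : Real.exp (-s) ≤ 1 := Real.exp_le_one_iff.2 (by linarith)
        nlinarith [Real.exp_pos (-s)]
      have h2 : ‖z s - x₀‖ ^ 2 ≤ ρ ^ 2 := pow_le_pow_left₀ (norm_nonneg _) h1 2
      exact mul_le_mul h2 (hw _ hm) (norm_nonneg _) (by positivity)
    have hYn := norm_nonneg (Y s)
    rw [Prod.norm_def]
    apply max_le
    · show ‖deriv ψ (z s) * (-(z s - x₀))‖ ≤ _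
      have e : deriv ψ (z s) * (-(z s - x₀)) = -((z s - x₀) * deriv ψ (z s)) := by ring
      rw [e, norm_neg]
      refine hY2.trans ?_
      have : 0 ≤ ‖κ‖ + ρ ^ 2 * B := by positivity
      nlinarith
    · show ‖(-(z s - x₀)) * deriv ψ (z s) +
        (z s - x₀) * (deriv (deriv ψ) (z s) * (-(z s - x₀)))‖ ≤ _
      rw [e2]
      refine (norm_add_le _ _).trans ?_
      have e3 : ‖(-(z s - x₀)) * deriv ψ (z s)‖ ≤ ‖Y s‖ := by
        rw [neg_mul, norm_neg]; exact hY2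
      have e4 : ‖-((κ + (z s - x₀) ^ 2 * w (z s)) * ψ (z s))‖ ≤ (‖κ‖ + ρ ^ 2 * B) * ‖Y s‖ := by
        rw [norm_neg, norm_mul]
        refine mul_le_mul ((norm_add_le _ _).trans (by linarith)) hY1 (norm_nonneg _)
          (by positivity)
      linarith
  have hg := norm_le_gronwallBound_of_norm_deriv_right_le (f := Y) (f' := Y')
    (δ := ‖Y 0‖) (K := 1 + ‖κ‖ + ρ ^ 2 * B) (ε := 0) (a := 0) (b := t)
    (fun s hs => (hYd s hs.1).continuousAt.continuousWithinAt)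
    (fun s hs => (hYd s hs.1).hasDerivWithinAt) le_rfl (fun s hs => hbd s hs.1) t ⟨ht, le_rfl⟩
  rw [sub_zero, gronwallBound_ε0] at hg
  refine (norm_fst_le (Y t)).trans (hg.trans (le_of_eq ?_))
  congr 1
  have hz0 : z 0 = ζ := by simp [hz]
  rw [Prod.norm_def]
  show max ‖ψ (z 0)‖ ‖(z 0 - x₀) * deriv ψ (z 0)‖ = _
  rw [hz0, norm_mul, hζ]

/-- Single-valued solutions are meromorphic. -/
theorem meromorphic_of_ode {ψ q w : ℂ → ℂ} {x₀ κ : ℂ} {r B : ℝ} (hr : 0 < r) (hB : 0 ≤ B)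
    (hψ : DifferentiableOn ℂ ψ (punct x₀ r))
    (hode : ∀ z ∈ punct x₀ r, deriv (deriv ψ) z = q z * ψ z)
    (hq : ∀ z ∈ punct x₀ r, q z = κ / (z - x₀) ^ 2 + w z)
    (hw : ∀ z ∈ punct x₀ r, ‖w z‖ ≤ B) : MeromorphicAt ψ x₀ := by
  set ρ : ℝ := r / 2 with hρ
  have hρ0 : 0 < ρ := by positivity
  have hρr : ρ < r := by rw [hρ]; linarith
  -- bound on the circle
  have hcpt : IsCompact (Metric.sphere x₀ ρ) := isCompact_sphere x₀ ρ
  have hsub : Metric.sphere x₀ ρ ⊆ punct x₀ r := by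
    intro z hz
    rw [mem_sphere_iff_norm] at hz
    exact ⟨by rw [hz]; exact hρ0, by rw [hz]; exact hρr⟩
  have hcont : ContinuousOn (fun z => max ‖ψ z‖ (ρ * ‖deriv ψ z‖)) (Metric.sphere x₀ ρ) := by
    intro z hz
    have h1 := (differentiableAt_of hψ (hsub hz)).continuousAt
    have h2 := (deriv_differentiableAt hψ (hsub hz)).continuousAt
    exact Tendsto.mono_left (Tendsto.max h1.norm (tendsto_const_nhds.mul h2.norm))
      nhdsWithin_le_nhds
  obtain ⟨C, hC⟩ := hcpt.exists_bound_of_continuousOn hcont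
  set K : ℝ := 1 + ‖κ‖ + ρ ^ 2 * B with hK
  set N : ℕ := ⌈K⌉₊ with hN
  have hKN : K ≤ N := Nat.le_ceil K
  have hbound : ∀ z ∈ punct x₀ ρ, ‖z - x₀‖ ^ N * ‖ψ z‖ ≤ ρ ^ N * |C| := by
    intro z hz
    have hz0 : 0 < ‖z - x₀‖ := hz.1
    set t : ℝ := Real.log (ρ / ‖z - x₀‖) with ht
    have ht0 : 0 ≤ t := Real.log_nonneg (by rw [le_div_iff₀ hz0]; linarith [hz.2])
    have hexp : Real.exp (-t) = ‖z - x₀‖ / ρ := by
      rw [ht, ← Real.log_inv, Real.exp_log (by positivity), inv_div]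
    set ζ : ℂ := x₀ + (z - x₀) * ((ρ / ‖z - x₀‖ : ℝ) : ℂ) with hζ
    have hζn : ‖ζ - x₀‖ = ρ := by
      rw [hζ, add_sub_cancel_left, norm_mul, Complex.norm_real, Real.norm_eq_abs,
        abs_of_pos (by positivity)]
      field_simp
    have hzz : x₀ + (ζ - x₀) * (Real.exp (-t) : ℂ) = z := by
      rw [hexp, hζ, add_sub_cancel_left, mul_assoc, ← Complex.ofReal_mul]
      have : ρ / ‖z - x₀‖ * (‖z - x₀‖ / ρ) = 1 := by field_simp
      rw [this]
      simp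
    have h1 := ray_bound hB hψ hode hq hw hρ0 hρr hζn t ht0
    rw [hzz] at h1
    have h2 : max ‖ψ ζ‖ (ρ * ‖deriv ψ ζ‖) ≤ |C| := by
      have h3 := hC ζ (by rw [mem_sphere_iff_norm]; exact hζn)
      rw [Real.norm_eq_abs] at h3
      exact (le_abs_self _).trans (h3.trans (le_abs_self _))
    have h3 : ‖ψ z‖ ≤ |C| * Real.exp (K * t) :=
      h1.trans (mul_le_mul_of_nonneg_right h2 (Real.exp_pos _).le)
    have h4 : ‖z - x₀‖ ^ N = ρ ^ N * Real.exp (-(N * t)) := by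
      have : ‖z - x₀‖ = ρ * Real.exp (-t) := by rw [hexp]; field_simp
      rw [this, mul_pow, ← Real.exp_nat_mul]
      congr 2
      ring
    rw [h4]
    calc ρ ^ N * Real.exp (-(N * t)) * ‖ψ z‖
        ≤ ρ ^ N * Real.exp (-(N * t)) * (|C| * Real.exp (K * t)) :=
          mul_le_mul_of_nonneg_left h3 (by positivity)
      _ = ρ ^ N * |C| * Real.exp (-(N * t) + K * t) := by rw [Real.exp_add]; ring
      _ ≤ ρ ^ N * |C| * 1 := by
          apply mul_le_mul_of_nonneg_left _ (by positivity)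
          apply Real.exp_le_one_iff.2
          nlinarith
      _ = ρ ^ N * |C| := mul_one _
  refine ⟨N + 1, ?_⟩
  apply Complex.analyticAt_of_differentiable_on_punctured_nhds_of_continuousAt
  · have hmem : punct x₀ r ∈ 𝓝[≠] x₀ := by
      rw [mem_nhdsWithin]
      refine ⟨Metric.ball x₀ r, Metric.isOpen_ball, Metric.mem_ball_self hr, ?_⟩
      rintro z ⟨hz1, hz2⟩
      rw [mem_ball_iff_norm] at hz1
      exact ⟨norm_pos_iff.2 (sub_ne_zero.2 hz2), hz1⟩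
    filter_upwards [hmem] with z hz
    exact ((differentiableAt_id.sub_const x₀).pow _).smul (differentiableAt_of hψ hz)
  · rw [Metric.continuousAt_iff]
    intro ε hε
    refine ⟨min ρ (ε / (ρ ^ N * |C| + 1)), lt_min hρ0 (by positivity), ?_⟩
    intro z hz
    rw [dist_eq_norm] at hz ⊢
    simp only [sub_self, ne_eq, Nat.add_eq_zero_iff, one_ne_zero, and_false, not_false_eq_true,
      zero_pow, zero_smul, sub_zero]
    by_cases hzx : z = x₀
    · subst hzx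
      simp [hε]
    have hz0 : 0 < ‖z - x₀‖ := norm_pos_iff.2 (sub_ne_zero.2 hzx)
    have h1 := hbound z ⟨hz0, hz.trans_le (min_le_left _ _)⟩
    rw [norm_smul, norm_pow, pow_succ]
    have h2 : ‖z - x₀‖ < ε / (ρ ^ N * |C| + 1) := hz.trans_le (min_le_right _ _)
    have h3 : 0 < ρ ^ N * |C| + 1 := by positivity
    calc ‖z - x₀‖ ^ N * ‖z - x₀‖ * ‖ψ z‖ = (‖z - x₀‖ ^ N * ‖ψ z‖) * ‖z - x₀‖ := by ring
      _ ≤ (ρ ^ N * |C|) * ‖z - x₀‖ := mul_le_mul_of_nonneg_right h1 hz0.le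
      _ ≤ (ρ ^ N * |C| + 1) * ‖z - x₀‖ := by nlinarith
      _ < (ρ ^ N * |C| + 1) * (ε / (ρ ^ N * |C| + 1)) := mul_lt_mul_of_pos_left h2 h3
      _ = ε := by field_simp

end Pool.Agent.W99.Mon
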