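import Mathlib
import Pool.Agent.W99.Mon.Defs
import Pool.Agent.W99.Mon.Growth

/-!
# Local exponents and the Duistermaat–Grünbaum condition
-/

namespace Pool.Agent.W99.Mon

open Filter Topology Set

/-- The leading exponent of a meromorphic solution. -/
theorem exponent {ψ q w g : ℂ → ℂ} {x₀ κ : ℂ} {n : ℤ}
    (hode : ∀ᶠ z in 𝓝[≠] x₀, deriv (deriv ψ) z = q z * ψ z)
    (hq : ∀ᶠ z in 𝓝[≠] x₀, q z = κ / (z - x₀) ^ 2 + w z)
    (hw : AnalyticAt ℂ w x₀) (hg : AnalyticAt ℂ g x₀)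
    (hψ : ∀ᶠ z in 𝓝[≠] x₀, ψ z = (z - x₀) ^ n * g z) :
    ∀ᶠ z in 𝓝 x₀, (n * (n - 1) : ℂ) * g z + 2 * n * (z - x₀) * deriv g z +
      (z - x₀) ^ 2 * deriv (deriv g) z = (κ + (z - x₀) ^ 2 * w z) * g z := by
  have hne : ∀ᶠ z in 𝓝[≠] x₀, z ≠ x₀ := eventually_mem_nhdsWithin
  have hga : ∀ᶠ z in 𝓝[≠] x₀, AnalyticAt ℂ g z :=
    hg.eventually_analyticAt.filter_mono nhdsWithin_le_nhds
  -- neighbourhoods
  have up : ∀ {p : ℂ → Prop}, (∀ᶠ z in 𝓝[≠] x₀, p z) → ∀ᶠ z in 𝓝[≠] x₀, ∀ᶠ y in 𝓝 z, p y := by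
    intro p hp
    have h1 := eventually_eventually_nhdsWithin.2 hp
    filter_upwards [h1, hne] with z hz hz'
    have : 𝓝[≠] x₀ ≤ 𝓝[≠] x₀ := le_rfl
    have e : 𝓝[{x₀}ᶜ] z = 𝓝 z := isOpen_compl_singleton.nhdsWithin_eq hz'
    rw [e] at hz
    exact hz
  have hd1 : ∀ᶠ z in 𝓝[≠] x₀, deriv ψ z =
      (n : ℂ) * (z - x₀) ^ (n - 1) * g z + (z - x₀) ^ n * deriv g z := by
    filter_upwards [up hψ, hne, hga] with z hz hz' hgz
    rw [EventuallyEq.deriv_eq hz]
    have hzs : z - x₀ ≠ 0 := sub_ne_zero.2 hz'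
    have h1 : HasDerivAt (fun y : ℂ => (y - x₀) ^ n) ((n : ℂ) * (z - x₀) ^ (n - 1)) z := by
      have := (hasDerivAt_zpow n (z - x₀) (Or.inl hzs)).comp z ((hasDerivAt_id z).sub_const x₀)
      simpa [Function.comp_def] using this
    have h2 := h1.mul hgz.differentiableAt.hasDerivAt
    exact h2.deriv
  have hd2 : ∀ᶠ z in 𝓝[≠] x₀, deriv (deriv ψ) z =
      (n : ℂ) * (((n - 1 : ℤ) : ℂ) * (z - x₀) ^ (n - 1 - 1)) * g z +
        2 * ((n : ℂ) * (z - x₀) ^ (n - 1) * deriv g z) + (z - x₀) ^ n * deriv (deriv g) z := by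
    filter_upwards [up hd1, hne, hga] with z hz hz' hgz
    rw [EventuallyEq.deriv_eq hz]
    have hzs : z - x₀ ≠ 0 := sub_ne_zero.2 hz'
    have h1 : ∀ m : ℤ, HasDerivAt (fun y : ℂ => (y - x₀) ^ m) ((m : ℂ) * (z - x₀) ^ (m - 1)) z := by
      intro m
      have := (hasDerivAt_zpow m (z - x₀) (Or.inl hzs)).comp z ((hasDerivAt_id z).sub_const x₀)
      simpa [Function.comp_def] using this
    have h2 := (((h1 (n - 1)).const_mul (n : ℂ)).mul hgz.differentiableAt.hasDerivAt).add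
      ((h1 n).mul hgz.deriv.differentiableAt.hasDerivAt)
    have h3 := h2.deriv
    refine Eq.trans h3 ?_
    ring
  have hmain : ∀ᶠ z in 𝓝[≠] x₀, (n * (n - 1) : ℂ) * g z + 2 * n * (z - x₀) * deriv g z +
      (z - x₀) ^ 2 * deriv (deriv g) z = (κ + (z - x₀) ^ 2 * w z) * g z := by
    filter_upwards [hd2, hode, hq, hψ, hne] with z h2 h3 h4 h5 hz'
    have hzs : z - x₀ ≠ 0 := sub_ne_zero.2 hz'
    rw [h3, h4, h5] at h2
    have e1 : (z - x₀) ^ n = (z - x₀) ^ 2 * (z - x₀) ^ (n - 1 - 1) := by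
      rw [← zpow_natCast, ← zpow_add₀ hzs]
      congr 1
      push_cast
      ring
    have e2 : (z - x₀) ^ (n - 1) = (z - x₀) * (z - x₀) ^ (n - 1 - 1) := by
      rw [← zpow_one_add₀ hzs]
      congr 1
      ring
    rw [e1, e2] at h2
    have hp : (z - x₀) ^ (n - 1 - 1) ≠ 0 := zpow_ne_zero _ hzs
    have h6 : (κ / (z - x₀) ^ 2 + w z) * ((z - x₀) ^ 2 * (z - x₀) ^ (n - 1 - 1) * g z) =
        (z - x₀) ^ (n - 1 - 1) * ((κ + (z - x₀) ^ 2 * w z) * g z) := by
      field_simp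
    rw [h6] at h2
    apply mul_left_cancel₀ hp
    rw [h2]
    push_cast
    ring
  -- both sides are analytic
  have hL : AnalyticAt ℂ (fun z => (n * (n - 1) : ℂ) * g z + 2 * n * (z - x₀) * deriv g z +
      (z - x₀) ^ 2 * deriv (deriv g) z) x₀ := by
    have hz : AnalyticAt ℂ (fun z : ℂ => z - x₀) x₀ := analyticAt_id.sub analyticAt_const
    exact ((analyticAt_const.mul hg).add ((analyticAt_const.mul hz).mul hg.deriv)).add
      ((hz.pow 2).mul hg.deriv.deriv)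
  have hR : AnalyticAt ℂ (fun z => (κ + (z - x₀) ^ 2 * w z) * g z) x₀ := by
    have hz : AnalyticAt ℂ (fun z : ℂ => z - x₀) x₀ := analyticAt_id.sub analyticAt_const
    exact (analyticAt_const.add ((hz.pow 2).mul hw)).mul hg
  exact (hL.frequently_eq_iff_eventually_eq hR).1 hmain.frequently

/-- If the exponent is `-1` and `κ = 2`, the derivative of `w` vanishes. -/
theorem deriv_w_eq_zero {w g : ℂ → ℂ} {x₀ : ℂ}
    (hw : AnalyticAt ℂ w x₀) (hg : AnalyticAt ℂ g x₀) (hg0 : g x₀ ≠ 0)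
    (h : ∀ᶠ z in 𝓝 x₀, (((-1 : ℤ) : ℂ) * (((-1 : ℤ) : ℂ) - 1) : ℂ) * g z +
      2 * ((-1 : ℤ) : ℂ) * (z - x₀) * deriv g z +
      (z - x₀) ^ 2 * deriv (deriv g) z = (2 + (z - x₀) ^ 2 * w z) * g z) : deriv w x₀ = 0 := by
  have hz : AnalyticAt ℂ (fun z : ℂ => z - x₀) x₀ := analyticAt_id.sub analyticAt_const
  -- `2 g' = (z - x₀) (g'' - w g)`
  set k : ℂ → ℂ := fun z => deriv (deriv g) z - w z * g z with hk
  have hka : AnalyticAt ℂ k x₀ := hg.deriv.deriv.sub (hw.mul hg)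
  have h1 : ∀ᶠ z in 𝓝 x₀, 2 * deriv g z = (z - x₀) * k z := by
    have h2 : ∀ᶠ z in 𝓝[≠] x₀, 2 * deriv g z = (z - x₀) * k z := by
      have hne : ∀ᶠ z in 𝓝[≠] x₀, z ≠ x₀ := eventually_mem_nhdsWithin
      filter_upwards [h.filter_mono nhdsWithin_le_nhds, hne] with z hz1 hz2
      have hzs : z - x₀ ≠ 0 := sub_ne_zero.2 hz2
      push_cast at hz1
      apply mul_left_cancel₀ hzs
      simp only [hk]
      linear_combination -hz1
    exact ((analyticAt_const.mul hg.deriv).frequently_eq_iff_eventually_eq (hz.mul hka)).1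
      h2.frequently
  -- differentiate
  have h2 : ∀ᶠ z in 𝓝 x₀, 2 * deriv (deriv g) z = k z + (z - x₀) * deriv k z := by
    filter_upwards [h1.eventually_nhds, hg.eventually_analyticAt, hka.eventually_analyticAt]
      with z hz1 hgz hkz
    have e := EventuallyEq.deriv_eq (f₁ := fun y => 2 * deriv g y)
      (f := fun y => (y - x₀) * k y) hz1
    have e1 : deriv (fun y => 2 * deriv g y) z = 2 * deriv (deriv g) z :=
      (hgz.deriv.differentiableAt.hasDerivAt.const_mul 2).deriv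
    have e2 : deriv (fun y => (y - x₀) * k y) z = k z + (z - x₀) * deriv k z := by
      have := (((hasDerivAt_id z).sub_const x₀).mul hkz.differentiableAt.hasDerivAt).deriv
      refine Eq.trans this ?_
      simp
    rw [e1, e2] at e
    exact e
  -- `w g = g'' - k`
  have h3 : ∀ᶠ z in 𝓝 x₀, 2 * (w z * g z) = - k z + (z - x₀) * deriv k z := by
    filter_upwards [h2] with z hz2
    simp only [hk] at hz2 ⊢
    linear_combination hz2
  have e := EventuallyEq.deriv_eq (f₁ := fun y => 2 * (w y * g y))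
    (f := fun y => - k y + (y - x₀) * deriv k y) h3
  have e1 : deriv (fun y => 2 * (w y * g y)) x₀ =
      2 * (deriv w x₀ * g x₀ + w x₀ * deriv g x₀) :=
    ((hw.differentiableAt.hasDerivAt.mul hg.differentiableAt.hasDerivAt).const_mul 2).deriv
  have e2 : deriv (fun y => - k y + (y - x₀) * deriv k y) x₀ = 0 := by
    have := ((hka.differentiableAt.hasDerivAt.neg).add
      (((hasDerivAt_id x₀).sub_const x₀).mul hka.deriv.differentiableAt.hasDerivAt)).deriv
    refine Eq.trans this ?_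
    simp
  rw [e1, e2] at e
  have h4 : deriv g x₀ = 0 := by
    have := h1.self_of_nhds
    simpa using this
  rw [h4] at e
  simpa [hg0] using e

/-- **Local analysis.** Let `V = κ / (z - x₀)² + w` with `w` analytic at `x₀`. If `V` has trivial
monodromy at `x₀` then `κ = n (n - 1)` for an integer `n`, and if `κ = 2`, then `w'(x₀) = 0`. -/
theorem local_main {V w : ℂ → ℂ} {x₀ κ : ℂ} (hw : AnalyticAt ℂ w x₀)
    (hV : ∀ᶠ z in 𝓝[≠] x₀, V z = κ / (z - x₀) ^ 2 + w z) (h : TrivialMonodromy V x₀) :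
    (∃ n : ℤ, κ = n * (n - 1)) ∧ (κ = 2 → deriv w x₀ = 0) := by
  obtain ⟨r₁, hr₁, hsol⟩ := h 0
  -- a common radius
  obtain ⟨r₂, hr₂, hV2⟩ : ∃ r₂ > 0, ∀ z ∈ punct x₀ r₂, V z = κ / (z - x₀) ^ 2 + w z := by
    rw [eventually_nhdsWithin_iff, Metric.eventually_nhds_iff] at hV
    obtain ⟨ε, hε, hh⟩ := hV
    refine ⟨ε, hε, fun z hz => hh ?_ ?_⟩
    · rw [dist_eq_norm]; exact hz.2
    · intro hzx
      have := hz.1
      rw [mem_singleton_iff] at hzx
      rw [hzx, sub_self, norm_zero] at this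
      exact lt_irrefl _ this
  obtain ⟨r₃, hr₃, B, hB, hwB⟩ : ∃ r₃ > 0, ∃ B ≥ 0, ∀ z, ‖z - x₀‖ < r₃ → ‖w z‖ ≤ B := by
    have := hw.continuousAt.norm.eventually_lt_const (lt_add_one ‖w x₀‖)
    rw [Metric.eventually_nhds_iff] at this
    obtain ⟨ε, hε, hh⟩ := this
    refine ⟨ε, hε, ‖w x₀‖ + 1, by positivity, fun z hz => (hh ?_).le⟩
    rw [dist_eq_norm]; exact hz
  set r : ℝ := min r₁ (min r₂ r₃) with hr
  have hr0 : 0 < r := lt_min hr₁ (lt_min hr₂ hr₃)
  have hrr1 : r ≤ r₁ := min_le_left _ _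
  have hrr2 : r ≤ r₂ := (min_le_right _ _).trans (min_le_left _ _)
  have hrr3 : r ≤ r₃ := (min_le_right _ _).trans (min_le_right _ _)
  -- the base point
  set x₁ : ℂ := x₀ + ((r / 2 : ℝ) : ℂ) with hx₁
  have hx₁n : ‖x₁ - x₀‖ = r / 2 := by
    rw [hx₁, add_sub_cancel_left, Complex.norm_real, Real.norm_eq_abs, abs_of_pos (by positivity)]
  have hx₁m : x₁ ∈ punct x₀ r := ⟨by rw [hx₁n]; positivity, by rw [hx₁n]; linarith⟩
  obtain ⟨ψ₁, hd1, ho1, ha1, hb1⟩ := hsol x₁ (punct_mono hrr1 hx₁m) 1 0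
  obtain ⟨ψ₂, hd2, ho2, ha2, hb2⟩ := hsol x₁ (punct_mono hrr1 hx₁m) 0 1
  have hd1' := hd1.mono (punct_mono hrr1)
  have hd2' := hd2.mono (punct_mono hrr1)
  have ho1' : ∀ z ∈ punct x₀ r, deriv (deriv ψ₁) z = V z * ψ₁ z := fun z hz => by
    have := ho1 z (punct_mono hrr1 hz)
    linear_combination -this
  have ho2' : ∀ z ∈ punct x₀ r, deriv (deriv ψ₂) z = V z * ψ₂ z := fun z hz => by
    have := ho2 z (punct_mono hrr1 hz)
    linear_combination -this
  have hq : ∀ z ∈ punct x₀ r, V z = κ / (z - x₀) ^ 2 + w z :=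
    fun z hz => hV2 z (punct_mono hrr2 hz)
  have hwb : ∀ z ∈ punct x₀ r, ‖w z‖ ≤ B := fun z hz => hwB z (hz.2.trans_le hrr3)
  have hm1 := meromorphic_of_ode hr0 hB hd1' ho1' hq hwb
  have hm2 := meromorphic_of_ode hr0 hB hd2' ho2' hq hwb
  have hmem : punct x₀ r ∈ 𝓝[≠] x₀ := by
    rw [mem_nhdsWithin]
    refine ⟨Metric.ball x₀ r, Metric.isOpen_ball, Metric.mem_ball_self hr0, ?_⟩
    rintro z ⟨hz1, hz2⟩
    rw [mem_ball_iff_norm] at hz1
    exact ⟨norm_pos_iff.2 (sub_ne_zero.2 hz2), hz1⟩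
  -- a solution that is a square times an analytic function cannot occur twice
  have hWr : ¬ ((∃ g, AnalyticAt ℂ g x₀ ∧ ∀ᶠ z in 𝓝[≠] x₀, ψ₁ z = (z - x₀) ^ (2 : ℤ) * g z) ∧
      (∃ g, AnalyticAt ℂ g x₀ ∧ ∀ᶠ z in 𝓝[≠] x₀, ψ₂ z = (z - x₀) ^ (2 : ℤ) * g z)) := by
    rintro ⟨⟨g₁, hg₁, he₁⟩, g₂, hg₂, he₂⟩
    -- the limit of the Wronskian is zero
    have lim : ∀ {ψ g : ℂ → ℂ}, AnalyticAt ℂ g x₀ →
        (∀ᶠ z in 𝓝[≠] x₀, ψ z = (z - x₀) ^ (2 : ℤ) * g z) →
        Tendsto ψ (𝓝[≠] x₀) (𝓝 0) ∧ Tendsto (deriv ψ) (𝓝[≠] x₀) (𝓝 0) := by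
      intro ψ g hg he
      set G : ℂ → ℂ := fun z => (z - x₀) ^ 2 * g z with hG
      have hGa : AnalyticAt ℂ G x₀ := by
        have hz : AnalyticAt ℂ (fun z : ℂ => z - x₀) x₀ := analyticAt_id.sub analyticAt_const
        exact (hz.pow 2).mul hg
      have he' : ψ =ᶠ[𝓝[≠] x₀] G := by
        filter_upwards [he] with z hz
        rw [hz]; rfl
      have hed : deriv ψ =ᶠ[𝓝[≠] x₀] deriv G := by
        have hne : ∀ᶠ z in 𝓝[≠] x₀, z ≠ x₀ := eventually_mem_nhdsWithin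
        have h1 := eventually_eventually_nhdsWithin.2 he'
        filter_upwards [h1, hne] with z hz hz'
        have e : 𝓝[{x₀}ᶜ] z = 𝓝 z := isOpen_compl_singleton.nhdsWithin_eq hz'
        rw [e] at hz
        exact EventuallyEq.deriv_eq hz
      have hG0 : G x₀ = 0 := by simp [hG]
      have hG1 : deriv G x₀ = 0 := by
        have h1 : HasDerivAt (fun z : ℂ => (z - x₀) ^ 2) (2 * (x₀ - x₀) ^ 1 * 1) x₀ := by
          have := ((hasDerivAt_id x₀).sub_const x₀).pow 2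
          exact this.congr_deriv (by simp)
        have h2 := (h1.mul hg.differentiableAt.hasDerivAt).deriv
        refine Eq.trans h2 ?_
        simp
      constructor
      · have := (hGa.continuousAt.tendsto.mono_left nhdsWithin_le_nhds : Tendsto G (𝓝[≠] x₀) _)
        rw [hG0] at this
        exact this.congr' he'.symm
      · have := (hGa.deriv.continuousAt.tendsto.mono_left nhdsWithin_le_nhds :
          Tendsto (deriv G) (𝓝[≠] x₀) _)
        rw [hG1] at this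
        exact this.congr' hed.symm
    obtain ⟨l1, l1'⟩ := lim hg₁ he₁
    obtain ⟨l2, l2'⟩ := lim hg₂ he₂
    have lW : Tendsto (fun z => ψ₁ z * deriv ψ₂ z - deriv ψ₁ z * ψ₂ z) (𝓝[≠] x₀) (𝓝 0) := by
      have := (l1.mul l2').sub (l1'.mul l2)
      simpa using this
    -- along the ray the Wronskian is constant
    set γ : ℝ → ℂ := fun t => x₀ + (t : ℂ) * (x₁ - x₀) with hγ
    have hγm : ∀ t : ℝ, 0 < t → t ≤ 1 → γ t ∈ punct x₀ r := by
      intro t ht0 ht1
      have : ‖γ t - x₀‖ = t * (r / 2) := by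
        rw [hγ]
        simp only [add_sub_cancel_left]
        rw [norm_mul, Complex.norm_real, Real.norm_eq_abs, abs_of_pos ht0, hx₁n]
      refine ⟨by rw [this]; positivity, ?_⟩
      rw [this]
      nlinarith
    have hγd : ∀ t : ℝ, HasDerivAt γ (x₁ - x₀) t := by
      intro t
      have h1 : HasDerivAt (fun t : ℝ => (t : ℂ)) 1 t := Complex.ofRealCLM.hasDerivAt
      have h2 := (h1.mul_const (x₁ - x₀)).const_add x₀
      exact h2.congr_deriv (by simp)
    set W : ℝ → ℂ := fun t => ψ₁ (γ t) * deriv ψ₂ (γ t) - deriv ψ₁ (γ t) * ψ₂ (γ t) with hW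
    have hWd : ∀ t : ℝ, 0 < t → t ≤ 1 → HasDerivAt W 0 t := by
      intro t ht0 ht1
      have hm := hγm t ht0 ht1
      have a1 := (differentiableAt_of hd1' hm).hasDerivAt.comp t (hγd t)
      have a2 := (differentiableAt_of hd2' hm).hasDerivAt.comp t (hγd t)
      have b1 := (deriv_differentiableAt hd1' hm).hasDerivAt.comp t (hγd t)
      have b2 := (deriv_differentiableAt hd2' hm).hasDerivAt.comp t (hγd t)
      refine ((a1.mul b2).sub (b1.mul a2)).congr_deriv ?_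
      simp only [Function.comp]
      rw [ho1' _ hm, ho2' _ hm]
      ring
    have hconst : ∀ ε : ℝ, 0 < ε → ε ≤ 1 → W ε = W 1 := by
      intro ε hε0 hε1
      have hc : ∀ t ∈ Icc ε 1, W t = W ε :=
        constant_of_has_deriv_right_zero
          (fun t ht => (hWd t (hε0.trans_le ht.1) ht.2).continuousAt.continuousWithinAt)
          (fun t ht => (hWd t (hε0.trans_le ht.1) ht.2.le).hasDerivWithinAt)
      exact (hc 1 ⟨hε1, le_rfl⟩).symm
    have hW1 : W 1 = 1 := by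
      have : γ 1 = x₁ := by simp [hγ]
      rw [hW]
      simp only [this, ha1, hb2, hb1, ha2]
      ring
    have hγlim : Tendsto γ (𝓝[>] 0) (𝓝[≠] x₀) := by
      rw [tendsto_nhdsWithin_iff]
      constructor
      · have : Tendsto γ (𝓝 0) (𝓝 (γ 0)) := (hγd 0).continuousAt.tendsto
        have h0 : γ 0 = x₀ := by simp [hγ]
        rw [h0] at this
        exact this.mono_left nhdsWithin_le_nhds
      · have h1 : ∀ᶠ t : ℝ in 𝓝[>] 0, t ≤ 1 :=
          Filter.Eventually.filter_mono nhdsWithin_le_nhds (eventually_le_nhds one_pos)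
        filter_upwards [eventually_mem_nhdsWithin, h1] with t ht ht1
        have := (hγm t ht ht1).1
        intro hcon
        rw [mem_singleton_iff] at hcon
        rw [hcon, sub_self, norm_zero] at this
        exact lt_irrefl _ this
    have l3 : Tendsto W (𝓝[>] 0) (𝓝 0) := lW.comp hγlim
    have l4 : Tendsto W (𝓝[>] 0) (𝓝 1) := by
      refine tendsto_const_nhds.congr' ?_
      have h1 : ∀ᶠ t : ℝ in 𝓝[>] 0, t ≤ 1 :=
        Filter.Eventually.filter_mono nhdsWithin_le_nhds (eventually_le_nhds one_pos)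
      filter_upwards [eventually_mem_nhdsWithin, h1] with t ht ht1
      rw [hconst t ht ht1, hW1]
    exact zero_ne_one (tendsto_nhds_unique l3 l4)
  -- each solution is zero or has an exponent
  have hcase : ∀ {ψ : ℂ → ℂ}, MeromorphicAt ψ x₀ →
      (∀ z ∈ punct x₀ r, deriv (deriv ψ) z = V z * ψ z) →
      (∀ᶠ z in 𝓝[≠] x₀, ψ z = 0) ∨ ∃ (n : ℤ) (g : ℂ → ℂ), AnalyticAt ℂ g x₀ ∧ g x₀ ≠ 0 ∧
        (∀ᶠ z in 𝓝[≠] x₀, ψ z = (z - x₀) ^ n * g z) ∧ κ = n * (n - 1) ∧
        (κ = 2 → n = -1 → deriv w x₀ = 0) := by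
    intro ψ hm hode
    by_cases htop : meromorphicOrderAt ψ x₀ = ⊤
    · left
      exact meromorphicOrderAt_eq_top_iff.1 htop
    · right
      obtain ⟨n, hn⟩ := WithTop.ne_top_iff_exists.1 htop
      obtain ⟨g, hg, hg0, he⟩ := (meromorphicOrderAt_eq_int_iff hm).1 hn.symm
      simp only [smul_eq_mul] at he
      have hex := exponent (n := n) (w := w) (κ := κ) (eventually_of_mem hmem hode)
        (eventually_of_mem hmem hq) hw hg he
      have hκ : κ = n * (n - 1) := by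
        have h0 := hex.self_of_nhds
        simp only [sub_self, mul_zero, zero_mul, add_zero, ne_eq, OfNat.ofNat_ne_zero,
          not_false_eq_true, zero_pow] at h0
        exact (mul_right_cancel₀ hg0 h0).symm
      refine ⟨n, g, hg, hg0, he, hκ, ?_⟩
      intro hk2 hn1
      subst hn1
      rw [hk2] at hex
      exact deriv_w_eq_zero hw hg hg0 hex
  have hc1 := hcase hm1 ho1'
  have hc2 := hcase hm2 ho2'
  have zero_case : ∀ {ψ : ℂ → ℂ}, (∀ᶠ z in 𝓝[≠] x₀, ψ z = 0) →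
      ∃ g, AnalyticAt ℂ g x₀ ∧ ∀ᶠ z in 𝓝[≠] x₀, ψ z = (z - x₀) ^ (2 : ℤ) * g z := by
    intro ψ hz
    refine ⟨fun _ => 0, analyticAt_const, ?_⟩
    filter_upwards [hz] with z hz
    rw [hz, mul_zero]
  constructor
  · rcases hc1 with h1 | ⟨n, _, _, _, _, h1, _⟩
    · rcases hc2 with h2 | ⟨n, _, _, _, _, h2, _⟩
      · exact absurd ⟨zero_case h1, zero_case h2⟩ hWr
      · exact ⟨n, h2⟩
    · exact ⟨n, h1⟩
  · intro hκ
    have hdich : ∀ n : ℤ, κ = n * (n - 1) → n = 2 ∨ n = -1 := by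
      intro n hn
      rw [hκ] at hn
      have : (2 : ℤ) = n * (n - 1) := by exact_mod_cast hn
      have h3 : (n - 2) * (n + 1) = 0 := by linarith
      rcases mul_eq_zero.1 h3 with h4 | h4
      · left; omega
      · right; omega
    rcases hc1 with h1 | ⟨n, g, hg, _, he, h1, h1'⟩
    · rcases hc2 with h2 | ⟨n, g, hg, _, he, h2, h2'⟩
      · exact absurd ⟨zero_case h1, zero_case h2⟩ hWr
      · rcases hdich n h2 with hn | hn
        · subst hn
          exact absurd ⟨zero_case h1, g, hg, he⟩ hWr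
        · exact h2' hκ hn
    · rcases hdich n h1 with hn | hn
      · subst hn
        rcases hc2 with h2 | ⟨n, g', hg', _, he', h2, h2'⟩
        · exact absurd ⟨⟨g, hg, he⟩, zero_case h2⟩ hWr
        · rcases hdich n h2 with hn | hn
          · subst hn
            exact absurd ⟨⟨g, hg, he⟩, g', hg', he'⟩ hWr
          · exact h2' hκ hn
      · exact h1' hκ hn

end Pool.Agent.W99.Mon
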