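import Mathlib
import Pool.Agent.W99.Mon.Defs
import Pool.Agent.W99.Mon.Local

/-!
# There is no monster potential of momentum `0` and degree `2`
-/

namespace Pool.Agent.W99.Mon

open Filter Topology Set Polynomial

theorem exists_roots (P : ℂ[X]) (hm : P.Monic) (hd : P.natDegree = 2) :
    ∃ a b : ℂ, ∀ t : ℂ, P.eval t = (t - a) * (t - b) := by
  have hs : P.Splits := IsAlgClosed.splits P
  have hc : Multiset.card P.roots = 2 := by
    rw [← hd]
    exact (Polynomial.splits_iff_card_roots.1 hs)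
  obtain ⟨a, b, hab⟩ := Multiset.card_eq_two.1 hc
  refine ⟨a, b, fun t => ?_⟩
  have h := hs.eq_prod_roots_of_monic hm
  rw [hab] at h
  rw [h]
  simp

/-- The potential in terms of the roots of `P`. -/
theorem pot_formula (P : ℂ[X]) (a b : ℂ) (hP : ∀ t : ℂ, P.eval t = (t - a) * (t - b)) (x : ℂ)
    (hxa : x ^ 4 ≠ a) (hxb : x ^ 4 ≠ b) :
    potential 0 P x = x ^ 2 - (1 / 4) / x ^ 2 + (8 * x ^ 6 + 24 * a * x ^ 2) / (x ^ 4 - a) ^ 2 +
      (8 * x ^ 6 + 24 * b * x ^ 2) / (x ^ 4 - b) ^ 2 := by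
  have hlog : (logDeriv fun y : ℂ => P.eval (y ^ 4)) =ᶠ[𝓝 x]
      fun y => 4 * y ^ 3 / (y ^ 4 - a) + 4 * y ^ 3 / (y ^ 4 - b) := by
    have ha : ∀ᶠ y in 𝓝 x, y ^ 4 ≠ a :=
      ((continuous_id.pow 4).continuousAt (x := x)).eventually_ne hxa
    have hb : ∀ᶠ y in 𝓝 x, y ^ 4 ≠ b :=
      ((continuous_id.pow 4).continuousAt (x := x)).eventually_ne hxb
    filter_upwards [ha, hb] with y hya hyb
    have e : (fun y : ℂ => P.eval (y ^ 4)) = fun y => (y ^ 4 - a) * (y ^ 4 - b) := by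
      funext z; exact hP _
    have h4 : HasDerivAt (fun y : ℂ => y ^ 4) (4 * y ^ 3) y := by
      simpa using hasDerivAt_pow 4 y
    have hd : deriv (fun y : ℂ => (y ^ 4 - a) * (y ^ 4 - b)) y =
        4 * y ^ 3 * (y ^ 4 - b) + (y ^ 4 - a) * (4 * y ^ 3) :=
      ((h4.sub_const a).mul (h4.sub_const b)).deriv
    rw [logDeriv_apply, e, hd, hP]
    have h1 : y ^ 4 - a ≠ 0 := sub_ne_zero.2 hya
    have h2 : y ^ 4 - b ≠ 0 := sub_ne_zero.2 hyb
    field_simp
  have hterm : ∀ c : ℂ, x ^ 4 ≠ c → HasDerivAt (fun y : ℂ => 4 * y ^ 3 / (y ^ 4 - c))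
      ((12 * x ^ 2 * (x ^ 4 - c) - 4 * x ^ 3 * (4 * x ^ 3)) / (x ^ 4 - c) ^ 2) x := by
    intro c hc
    have h3 : HasDerivAt (fun y : ℂ => 4 * y ^ 3) (12 * x ^ 2) x := by
      have := (hasDerivAt_pow 3 x).const_mul (4 : ℂ)
      refine this.congr_deriv ?_
      push_cast
      ring
    have h4 : HasDerivAt (fun y : ℂ => y ^ 4 - c) (4 * x ^ 3) x := by
      have := (hasDerivAt_pow 4 x).sub_const c
      simpa using this
    exact h3.div h4 (sub_ne_zero.2 hc)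
  have hsum : deriv (fun y : ℂ => 4 * y ^ 3 / (y ^ 4 - a) + 4 * y ^ 3 / (y ^ 4 - b)) x =
      (12 * x ^ 2 * (x ^ 4 - a) - 4 * x ^ 3 * (4 * x ^ 3)) / (x ^ 4 - a) ^ 2 +
      (12 * x ^ 2 * (x ^ 4 - b) - 4 * x ^ 3 * (4 * x ^ 3)) / (x ^ 4 - b) ^ 2 :=
    ((hterm a hxa).add (hterm b hxb)).deriv
  unfold potential
  rw [hlog.deriv_eq, hsum]
  have h1 : x ^ 4 - a ≠ 0 := sub_ne_zero.2 hxa
  have h2 : x ^ 4 - b ≠ 0 := sub_ne_zero.2 hxb
  have e : ∀ c : ℂ, (8 * x ^ 6 + 24 * c * x ^ 2) =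
      -2 * (12 * x ^ 2 * (x ^ 4 - c) - 4 * x ^ 3 * (4 * x ^ 3)) := by intro c; ring
  rw [e a, e b]
  ring

/-- Near `x₀` (but not at `x₀`) the values `x⁴` avoid `a`. -/
theorem eventually_pow_ne (a x₀ : ℂ) : ∀ᶠ y in 𝓝[≠] x₀, y ^ 4 ≠ a := by
  by_cases h : x₀ ^ 4 = a
  · have h1 : AnalyticAt ℂ (fun y : ℂ => y ^ 4 - a) x₀ := (analyticAt_id.pow 4).sub analyticAt_const
    rcases h1.eventually_eq_zero_or_eventually_ne_zero with h2 | h2
    · exfalso
      have h3 := h2.eventually_nhds.self_of_nhds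
      -- the polynomial `y⁴ - a` does not vanish near `x₀`
      have h4 : (fun y : ℂ => y ^ 4) =ᶠ[𝓝 x₀] fun _ => a := by
        filter_upwards [h2] with y hy
        exact sub_eq_zero.1 hy
      have hinf : Set.Infinite {y : ℂ | y ^ 4 = a} := by
        apply infinite_of_mem_nhds x₀
        filter_upwards [h4] with y hy
        exact hy
      apply hinf
      have hfin : Set.Finite {y : ℂ | (X ^ 4 - C a : ℂ[X]).IsRoot y} :=
        Polynomial.finite_setOfPred_isRoot (Polynomial.X_pow_sub_C_ne_zero (by norm_num) a)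
      refine hfin.subset ?_
      intro y hy
      have hy' : y ^ 4 = a := hy
      simp [Polynomial.IsRoot, hy']
    · filter_upwards [h2] with y hy
      exact sub_ne_zero.1 hy
  · exact (((continuous_id.pow 4).continuousAt (x := x₀)).eventually_ne h).filter_mono
      nhdsWithin_le_nhds

theorem factor4 (y c : ℂ) : y ^ 4 - c ^ 4 = (y - c) * (y ^ 3 + y ^ 2 * c + y * c ^ 2 + c ^ 3) := by
  ring

/-- The condition at a root `c` of `P(x⁴)`, `a = c⁴ ≠ 0`, `b ≠ a`. -/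
theorem cond (P : ℂ[X]) (b c : ℂ) (hc : c ≠ 0) (hb : c ^ 4 ≠ b)
    (hP : ∀ t : ℂ, P.eval t = (t - c ^ 4) * (t - b)) (h : TrivialMonodromy (potential 0 P) c) :
    (c ^ 4 + 1) * (c ^ 4 - b) ^ 3 = 8 * c ^ 4 * ((c ^ 4) ^ 2 + 12 * c ^ 4 * b + 3 * b ^ 2) := by
  set D : ℂ → ℂ := fun y => y ^ 3 + y ^ 2 * c + y * c ^ 2 + c ^ 3 with hD
  have hDc : D c ≠ 0 := by
    have : D c = 4 * c ^ 3 := by simp only [hD]; ring
    rw [this]
    exact mul_ne_zero (by norm_num) (pow_ne_zero 3 hc)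
  set w : ℂ → ℂ := fun y => y ^ 2 - (1 / 4) / y ^ 2 +
    (6 * y ^ 4 + 8 * c * y ^ 3 + 4 * c ^ 2 * y ^ 2 - 8 * c ^ 3 * y - 2 * c ^ 4) / (D y) ^ 2 +
    (8 * y ^ 6 + 24 * b * y ^ 2) / (y ^ 4 - b) ^ 2 with hw
  have hbc : c ^ 4 - b ≠ 0 := sub_ne_zero.2 hb
  have hwa : AnalyticAt ℂ w c := by
    have hy : AnalyticAt ℂ (fun y : ℂ => y) c := analyticAt_id
    have hDa : AnalyticAt ℂ D c := by fun_prop
    have h1 : AnalyticAt ℂ (fun y : ℂ => (1 / 4 : ℂ) / y ^ 2) c :=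
      analyticAt_const.div (by fun_prop) (pow_ne_zero _ hc)
    have h2 : AnalyticAt ℂ (fun y : ℂ =>
        (6 * y ^ 4 + 8 * c * y ^ 3 + 4 * c ^ 2 * y ^ 2 - 8 * c ^ 3 * y - 2 * c ^ 4) / (D y) ^ 2) c :=
      AnalyticAt.div (by fun_prop) (hDa.pow 2) (pow_ne_zero _ hDc)
    have h3 : AnalyticAt ℂ (fun y : ℂ => (8 * y ^ 6 + 24 * b * y ^ 2) / (y ^ 4 - b) ^ 2) c :=
      AnalyticAt.div (by fun_prop) (by fun_prop) (pow_ne_zero _ hbc)
    exact (((hy.pow 2).sub h1).add h2).add h3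
  have hV : ∀ᶠ z in 𝓝[≠] c, potential 0 P z = 2 / (z - c) ^ 2 + w z := by
    have hne : ∀ᶠ z in 𝓝[≠] c, z ≠ c := eventually_mem_nhdsWithin
    have hD' : ∀ᶠ z in 𝓝[≠] c, D z ≠ 0 := by
      have : ContinuousAt D c := by fun_prop
      exact (this.eventually_ne hDc).filter_mono nhdsWithin_le_nhds
    filter_upwards [eventually_pow_ne (c ^ 4) c, eventually_pow_ne b c, hne, hD']
      with z h1 h2 h3 h4
    rw [pot_formula P (c ^ 4) b hP z h1 h2]
    have hz : z - c ≠ 0 := sub_ne_zero.2 h3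
    have e : (8 * z ^ 6 + 24 * c ^ 4 * z ^ 2) / (z ^ 4 - c ^ 4) ^ 2 = 2 / (z - c) ^ 2 +
        (6 * z ^ 4 + 8 * c * z ^ 3 + 4 * c ^ 2 * z ^ 2 - 8 * c ^ 3 * z - 2 * c ^ 4) / (D z) ^ 2 := by
      have e1 : z ^ 4 - c ^ 4 = (z - c) * D z := factor4 z c
      rw [e1, mul_pow, div_add_div _ _ (pow_ne_zero 2 hz) (pow_ne_zero 2 h4)]
      congr 1
      simp only [hD]
      ring
    rw [e]
    simp only [hw]
    ring
  have hd := (local_main hwa hV h).2 rfl
  -- the derivative of `w` at `c`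
  have hD1 : HasDerivAt D (3 * c ^ 2 + 2 * c * c + c ^ 2) c := by
    have h3 := hasDerivAt_pow 3 c
    have h2 := (hasDerivAt_pow 2 c).mul_const c
    have h1 := (hasDerivAt_id c).mul_const (c ^ 2)
    refine (((h3.add h2).add h1).add_const (c ^ 3)).congr_deriv ?_
    push_cast
    ring
  have hN1 : HasDerivAt (fun y : ℂ => 6 * y ^ 4 + 8 * c * y ^ 3 + 4 * c ^ 2 * y ^ 2 -
      8 * c ^ 3 * y - 2 * c ^ 4) (24 * c ^ 3 + 24 * c * c ^ 2 + 8 * c ^ 2 * c - 8 * c ^ 3) c := by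
    have h4 := (hasDerivAt_pow 4 c).const_mul (6 : ℂ)
    have h3 := (hasDerivAt_pow 3 c).const_mul (8 * c)
    have h2 := (hasDerivAt_pow 2 c).const_mul (4 * c ^ 2)
    have h1 := (hasDerivAt_id c).const_mul (8 * c ^ 3)
    refine ((((h4.add h3).add h2).sub h1).sub_const (2 * c ^ 4)).congr_deriv ?_
    push_cast
    ring
  have hT1 := hN1.div (hD1.pow 2) (pow_ne_zero 2 hDc)
  have hN2 : HasDerivAt (fun y : ℂ => 8 * y ^ 6 + 24 * b * y ^ 2) (48 * c ^ 5 + 48 * b * c) c := by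
    have h6 := (hasDerivAt_pow 6 c).const_mul (8 : ℂ)
    have h2 := (hasDerivAt_pow 2 c).const_mul (24 * b)
    refine (h6.add h2).congr_deriv ?_
    push_cast
    ring
  have hM2 : HasDerivAt (fun y : ℂ => y ^ 4 - b) (4 * c ^ 3) c := by
    have := (hasDerivAt_pow 4 c).sub_const b
    simpa using this
  have hT2 := hN2.div (hM2.pow 2) (pow_ne_zero 2 hbc)
  have h2 := hasDerivAt_pow 2 c
  have hT0 := (hasDerivAt_const c (1 / 4 : ℂ)).div h2 (pow_ne_zero 2 hc)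
  have hwd := (((h2.sub hT0).add hT1).add hT2).deriv
  have hd' : deriv w c = _ := hwd
  rw [hd] at hd'
  have hDv : D c = 4 * c ^ 3 := by simp only [hD]; ring
  simp only [Pi.pow_apply, hDv] at hd'
  push_cast at hd'
  have hkey : (c ^ 4 + 1) * (c ^ 4 - b) ^ 3 -
      8 * c ^ 4 * ((c ^ 4) ^ 2 + 12 * c ^ 4 * b + 3 * b ^ 2) = 0 := by
    have := congrArg (fun t => t * (c ^ 3 * (c ^ 4 - b) ^ 3 / 2)) hd'
    simp only [zero_mul] at this
    rw [this]
    field_simp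
    ring
  linear_combination hkey

/-- The common form of the other cases: `κ` is not of the form `n (n - 1)`. -/
theorem no_exponent {κ : ℂ} (m : ℤ) (hm : κ = (m : ℂ) / 4) (h4 : m % 4 ≠ 0 ∨ m = 16) :
    ¬ ∃ n : ℤ, κ = n * (n - 1) := by
  rintro ⟨n, hn⟩
  rw [hm] at hn
  have h1 : (m : ℂ) = ((4 * (n * (n - 1)) : ℤ) : ℂ) := by
    push_cast
    linear_combination 4 * hn
  have h2 : m = 4 * (n * (n - 1)) := by exact_mod_cast h1
  rcases h4 with h4 | h4
  · omega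
  · have h3 : n * (n - 1) = 4 := by omega
    have h5 : n ≤ 2 := by nlinarith
    have h6 : -1 ≤ n := by nlinarith
    interval_cases n <;> omega

/-- The case of a double root `a = b = c⁴ ≠ 0`. -/
theorem case_double (P : ℂ[X]) (c : ℂ) (hc : c ≠ 0)
    (hP : ∀ t : ℂ, P.eval t = (t - c ^ 4) * (t - c ^ 4))
    (h : TrivialMonodromy (potential 0 P) c) : False := by
  set D : ℂ → ℂ := fun y => y ^ 3 + y ^ 2 * c + y * c ^ 2 + c ^ 3 with hD
  have hDc : D c ≠ 0 := by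
    have : D c = 4 * c ^ 3 := by simp only [hD]; ring
    rw [this]
    exact mul_ne_zero (by norm_num) (pow_ne_zero 3 hc)
  set w : ℂ → ℂ := fun y => y ^ 2 - (1 / 4) / y ^ 2 +
    2 * ((6 * y ^ 4 + 8 * c * y ^ 3 + 4 * c ^ 2 * y ^ 2 - 8 * c ^ 3 * y - 2 * c ^ 4) / (D y) ^ 2)
    with hw
  have hwa : AnalyticAt ℂ w c := by
    have hy : AnalyticAt ℂ (fun y : ℂ => y) c := analyticAt_id
    have hDa : AnalyticAt ℂ D c := by fun_prop
    have h1 : AnalyticAt ℂ (fun y : ℂ => (1 / 4 : ℂ) / y ^ 2) c :=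
      analyticAt_const.div (by fun_prop) (pow_ne_zero _ hc)
    have h2 : AnalyticAt ℂ (fun y : ℂ =>
        (6 * y ^ 4 + 8 * c * y ^ 3 + 4 * c ^ 2 * y ^ 2 - 8 * c ^ 3 * y - 2 * c ^ 4) / (D y) ^ 2) c :=
      AnalyticAt.div (by fun_prop) (hDa.pow 2) (pow_ne_zero _ hDc)
    exact ((hy.pow 2).sub h1).add (analyticAt_const.mul h2)
  have hV : ∀ᶠ z in 𝓝[≠] c, potential 0 P z = 4 / (z - c) ^ 2 + w z := by
    have hne : ∀ᶠ z in 𝓝[≠] c, z ≠ c := eventually_mem_nhdsWithin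
    have hD' : ∀ᶠ z in 𝓝[≠] c, D z ≠ 0 := by
      have : ContinuousAt D c := by fun_prop
      exact (this.eventually_ne hDc).filter_mono nhdsWithin_le_nhds
    filter_upwards [eventually_pow_ne (c ^ 4) c, hne, hD'] with z h1 h3 h4
    rw [pot_formula P (c ^ 4) (c ^ 4) hP z h1 h1]
    have hz : z - c ≠ 0 := sub_ne_zero.2 h3
    have e : (8 * z ^ 6 + 24 * c ^ 4 * z ^ 2) / (z ^ 4 - c ^ 4) ^ 2 = 2 / (z - c) ^ 2 +
        (6 * z ^ 4 + 8 * c * z ^ 3 + 4 * c ^ 2 * z ^ 2 - 8 * c ^ 3 * z - 2 * c ^ 4) / (D z) ^ 2 := by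
      have e1 : z ^ 4 - c ^ 4 = (z - c) * D z := factor4 z c
      rw [e1, mul_pow, div_add_div _ _ (pow_ne_zero 2 hz) (pow_ne_zero 2 h4)]
      congr 1
      simp only [hD]
      ring
    rw [e]
    simp only [hw]
    ring
  exact no_exponent 16 (by norm_num) (Or.inr rfl) (local_main hwa hV h).1

/-- The case of the roots `0` and `b ≠ 0`. -/
theorem case_zero (P : ℂ[X]) (b : ℂ) (hb : b ≠ 0)
    (hP : ∀ t : ℂ, P.eval t = (t - 0) * (t - b))
    (h : TrivialMonodromy (potential 0 P) 0) : False := by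
  set w : ℂ → ℂ := fun y => y ^ 2 + (8 * y ^ 6 + 24 * b * y ^ 2) / (y ^ 4 - b) ^ 2 with hw
  have hb' : (0 : ℂ) ^ 4 - b ≠ 0 := by simpa using hb
  have hwa : AnalyticAt ℂ w 0 := by
    have hy : AnalyticAt ℂ (fun y : ℂ => y) 0 := analyticAt_id
    have h3 : AnalyticAt ℂ (fun y : ℂ => (8 * y ^ 6 + 24 * b * y ^ 2) / (y ^ 4 - b) ^ 2) 0 :=
      AnalyticAt.div (by fun_prop) (by fun_prop) (pow_ne_zero _ hb')
    exact (hy.pow 2).add h3
  have hV : ∀ᶠ z in 𝓝[≠] (0 : ℂ), potential 0 P z = (31 / 4) / (z - 0) ^ 2 + w z := by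
    have hne : ∀ᶠ z in 𝓝[≠] (0 : ℂ), z ≠ 0 := eventually_mem_nhdsWithin
    filter_upwards [eventually_pow_ne 0 0, eventually_pow_ne b 0, hne] with z h1 h2 h3
    rw [pot_formula P 0 b hP z h1 h2]
    have e : (8 * z ^ 6 + 24 * 0 * z ^ 2) / (z ^ 4 - 0) ^ 2 = 8 / z ^ 2 := by
      field_simp
      ring
    rw [e, sub_zero]
    simp only [hw]
    ring
  exact no_exponent 31 (by norm_num) (Or.inl (by norm_num)) (local_main hwa hV h).1

/-- The case `P = t²`. -/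
theorem case_zero_zero (P : ℂ[X]) (hP : ∀ t : ℂ, P.eval t = (t - 0) * (t - 0))
    (h : TrivialMonodromy (potential 0 P) 0) : False := by
  set w : ℂ → ℂ := fun y => y ^ 2 with hw
  have hwa : AnalyticAt ℂ w 0 := analyticAt_id.pow 2
  have hV : ∀ᶠ z in 𝓝[≠] (0 : ℂ), potential 0 P z = (63 / 4) / (z - 0) ^ 2 + w z := by
    have hne : ∀ᶠ z in 𝓝[≠] (0 : ℂ), z ≠ 0 := eventually_mem_nhdsWithin
    filter_upwards [eventually_pow_ne 0 0, hne] with z h1 h3
    rw [pot_formula P 0 0 hP z h1 h1]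
    have e : (8 * z ^ 6 + 24 * 0 * z ^ 2) / (z ^ 4 - 0) ^ 2 = 8 / z ^ 2 := by
      field_simp
      ring
    rw [e, sub_zero]
    simp only [hw]
    ring
  exact no_exponent 63 (by norm_num) (Or.inl (by norm_num)) (local_main hwa hV h).1

/-- The algebraic part for two different nonzero roots. -/
theorem algebra_case (a b : ℂ) (ha : a ≠ 0) (hb : b ≠ 0) (hab : a ≠ b)
    (h1 : (a + 1) * (a - b) ^ 3 = 8 * a * (a ^ 2 + 12 * a * b + 3 * b ^ 2))
    (h2 : (b + 1) * (b - a) ^ 3 = 8 * b * (b ^ 2 + 12 * b * a + 3 * a ^ 2)) : False := by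
  have hd : a - b ≠ 0 := sub_ne_zero.2 hab
  set s : ℂ := a + b with hs
  set p : ℂ := a * b with hp
  have hp0 : p ≠ 0 := mul_ne_zero ha hb
  have e1 : (s ^ 2 - 4 * p) ^ 2 = 8 * s * (s ^ 2 + 12 * p) := by
    simp only [hs, hp]
    linear_combination h1 + h2
  have e2 : (s + 2) * (s ^ 2 - 4 * p) = 8 * (s ^ 2 + 8 * p) := by
    apply mul_left_cancel₀ hd
    simp only [hs, hp]
    linear_combination h1 - h2
  -- `p (4 s + 72) = s³ - 6 s²`
  have e3 : p * (4 * s + 72) = s ^ 3 - 6 * s ^ 2 := by linear_combination -e2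
  have e4 : (4 * s + 72) ^ 2 * ((s ^ 2 - 4 * p) ^ 2 - 8 * s * (s ^ 2 + 12 * p)) =
      -32 * 16 * s ^ 3 * s ^ 2 := by
    have e5 : (4 * s + 72) * (s ^ 2 - 4 * p) = 96 * s ^ 2 := by linear_combination -4 * e3
    have e6 : (4 * s + 72) * (s ^ 2 + 12 * p) = 16 * s ^ 3 := by linear_combination 12 * e3
    have e7 : (4 * s + 72) ^ 2 * ((s ^ 2 - 4 * p) ^ 2 - 8 * s * (s ^ 2 + 12 * p)) =
        ((4 * s + 72) * (s ^ 2 - 4 * p)) ^ 2 -
          8 * s * (4 * s + 72) * ((4 * s + 72) * (s ^ 2 + 12 * p)) := by ring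
    rw [e7, e5, e6]
    ring
  rw [e1, sub_self, mul_zero] at e4
  have hs0 : s = 0 := by
    have : s ^ 3 * s ^ 2 = 0 := by linear_combination (1 / 512) * e4
    rcases mul_eq_zero.1 this with h | h
    · exact pow_eq_zero_iff (by norm_num) |>.1 h
    · exact pow_eq_zero_iff (by norm_num) |>.1 h
  rw [hs0] at e3
  apply hp0
  linear_combination (1 / 72) * e3

/-- There is no monster potential of momentum `0` and degree `2`. -/
theorem numMonster_zero_two : numMonster 0 2 = 0 := by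
  unfold numMonster
  rw [Set.encard_eq_zero, Set.eq_empty_iff_forall_notMem]
  rintro P ⟨hm, hd, hP⟩
  obtain ⟨a, b, hab⟩ := exists_roots P hm hd
  obtain ⟨c, hc⟩ := IsAlgClosed.exists_pow_nat_eq a (n := 4) (by norm_num)
  obtain ⟨e, he⟩ := IsAlgClosed.exists_pow_nat_eq b (n := 4) (by norm_num)
  have h0 : ∀ x : ℂ, x ^ 4 = a ∨ x ^ 4 = b → TrivialMonodromy (potential 0 P) x := by
    intro x hx
    apply hP
    rw [hab]
    rcases hx with hx | hx <;> rw [hx] <;> ring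
  have hab' : ∀ t : ℂ, P.eval t = (t - b) * (t - a) := fun t => by rw [hab]; ring
  by_cases ha : a = 0
  · subst ha
    by_cases hb : b = 0
    · subst hb
      exact case_zero_zero P hab (h0 0 (Or.inl (by norm_num)))
    · exact case_zero P b hb hab (h0 0 (Or.inl (by norm_num)))
  · have hc0 : c ≠ 0 := by
      rintro rfl
      exact ha (by rw [← hc]; norm_num)
    by_cases hb : b = 0
    · subst hb
      exact case_zero P a ha hab' (h0 0 (Or.inr (by norm_num)))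
    · have he0 : e ≠ 0 := by
        rintro rfl
        exact hb (by rw [← he]; norm_num)
      by_cases heq : a = b
      · subst heq
        refine case_double P c hc0 ?_ (h0 c (Or.inl hc))
        intro t
        rw [hc, hab]
      · have k1 := cond P b c hc0 (by rw [hc]; exact heq) (by intro t; rw [hc, hab])
          (h0 c (Or.inl hc))
        have k2 := cond P a e he0 (by rw [he]; exact Ne.symm heq) (by intro t; rw [he, hab'])
          (h0 e (Or.inr he))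
        rw [hc] at k1
        rw [he] at k2
        exact algebra_case a b ha hb heq k1 k2

end Pool.Agent.W99.Mon
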