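import Mathlib

/-!
# Irreducible highest weight modules of the Virasoro algebra
-/

namespace Pool.Agent.W99.Mon

/-- The operators `L n` (`n ∈ ℤ`) on the complex vector space `V` satisfy the relations of the
Virasoro algebra with central charge `c`:
`[L_m, L_n] = (m - n) L_{m+n} + δ_{m+n,0} c (m³ - m) / 12`. -/
def IsVirasoro {V : Type} [AddCommGroup V] [Module ℂ V] (c : ℂ) (L : ℤ → Module.End ℂ V) : Prop :=
  ∀ m n : ℤ, L m * L n - L n * L m =
    ((m - n : ℤ) : ℂ) • L (m + n) +
      (if m + n = 0 then c * ((m : ℂ) ^ 3 - m) / 12 else 0) • (1 : Module.End ℂ V)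

/-- `V` with the operators `L n` is an irreducible highest weight module of the Virasoro algebra
with central charge `c`, highest weight `h` and highest weight vector `v`. -/
structure IsIrreducibleHW {V : Type} [AddCommGroup V] [Module ℂ V] (c h : ℂ)
    (L : ℤ → Module.End ℂ V) (v : V) : Prop where
  /-- the Virasoro relations -/
  vir : IsVirasoro c L
  /-- the vector is not zero -/
  ne : v ≠ 0
  /-- it is annihilated by `L_n` for `n > 0` -/
  pos : ∀ n : ℤ, 0 < n → L n v = 0
  /-- it is an eigenvector of `L_0` with eigenvalue `h` -/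
  zero : L 0 v = h • v
  /-- the only invariant subspaces are `0` and `V` -/
  irr : ∀ W : Submodule ℂ V, (∀ n : ℤ, ∀ w ∈ W, L n w ∈ W) → W = ⊥ ∨ W = ⊤

end Pool.Agent.W99.Mon
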