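import Mathlib
import Pool.Agent.Helper855.VirasoroTheory

/-!
# The degree two part of the irreducible module with `c = -2`, `h = -1/8`
-/

set_option autoImplicit false

namespace Pool.Agent.W99.Mon

open Pool.Agent.Helper855.Virasoro

/-- The maximal proper submodule of the Verma module `V_h` with central charge `c`: the sum of all
proper submodules (it is proper, see `maxProper_ne_top`). -/
noncomputable def maxProper (c h : ℂ) : Submodule (UVir ℂ) (Verma ℂ c h) :=
  sSup {N | N ≠ ⊤}

/-- The irreducible quotient of the Verma module. -/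
abbrev Irr (c h : ℂ) : Type _ := Verma ℂ c h ⧸ maxProper c h

/-- The image of the highest weight vector in the irreducible quotient. -/
noncomputable def ivac (c h : ℂ) : Irr c h := (maxProper c h).mkQ (vac ℂ c h)

/-- The dimension of the degree `n` part of the irreducible quotient, which is spanned by the
vectors `L_{-i_1} ⋯ L_{-i_r} v` with all `i_j > 0` and `i_1 + ⋯ + i_r = n`. -/
noncomputable def dimIrr (c h : ℂ) (n : ℕ) : ℕ :=
  Module.finrank ℂ (degreePart ℂ (ivac c h) n)

/-- The sum of the degree parts is everything. -/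
theorem exists_decomp {c h : ℂ} (x : Verma ℂ c h) :
    ∃ (m : ℕ) (y : ℕ → Verma ℂ c h), (∀ k, y k ∈ degreePart ℂ (vac ℂ c h) k) ∧
      x = ∑ k ∈ Finset.range (m + 1), y k := by
  -- the set of such sums is stable
  set Z : Submodule ℂ (Verma ℂ c h) := ⨆ k : ℕ, degreePart ℂ (vac ℂ c h) k with hZ
  have hle : ∀ k, degreePart ℂ (vac ℂ c h) k ≤ Z := fun k => le_iSup _ k
  have hstab : ∀ n : ℤ, ∀ z ∈ Z, uL ℂ n • z ∈ Z := by
    intro n z hz
    rw [hZ] at hz
    induction hz using Submodule.iSup_induction' with
    | mem k y hy =>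
      have h1 : y ∈ dP (F := ℂ) (vac ℂ c h) (k : ℤ) := by rw [dP_nat]; exact hy
      have h2 := (vacHW (F := ℂ) (c := c) (h := h)).act_dP h1 n
      rcases lt_or_ge ((k : ℤ) - n) 0 with hn | hn
      · unfold dP at h2
        rw [if_pos hn, Submodule.mem_bot] at h2
        rw [h2]; exact zero_mem _
      · obtain ⟨j, hj⟩ := Int.eq_ofNat_of_zero_le hn
        rw [hj, dP_nat] at h2
        exact hle j h2
    | zero => rw [smul_zero]; exact zero_mem _
    | add y z _ _ hy hz => rw [smul_add]; exact add_mem hy hz
  have hv : vac ℂ c h ∈ Z := by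
    have h1 := mono_mem (F := ℂ) (v := vac ℂ c h) (l := []) (by simp)
    rw [mono_nil, one_smul] at h1
    exact hle 0 h1
  obtain ⟨u, rfl⟩ := exists_smul_vac x
  have hx : u • vac ℂ c h ∈ Z := by
    refine stable_of Z hstab ?_ u _ hv
    intro z hz; rw [C_smul]; exact Submodule.smul_mem _ _ hz
  obtain ⟨f, hf, hfs⟩ := (Submodule.mem_iSup_iff_exists_finsupp _ _).1 hx
  refine ⟨f.support.sup id, fun k => f k, hf, ?_⟩
  rw [← hfs]
  unfold Finsupp.sum
  symm
  refine (Finset.sum_subset ?_ ?_).symm
  · intro k hk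
    rw [Finset.mem_range]
    have : k ≤ f.support.sup id := Finset.le_sup (f := id) hk
    omega
  · intro k _ hk
    exact Finsupp.notMem_support_iff.1 hk

/-- Proper submodules are contained in the radical of the functional `eps`. -/
theorem proper_le_Rad {c h : ℂ} {N : Submodule (UVir ℂ) (Verma ℂ c h)} (hN : N ≠ ⊤) :
    N ≤ Rad c h := by
  have key : ∀ x ∈ N, eps c h x = 0 := by
    intro x hx
    obtain ⟨m, y, hy, rfl⟩ := exists_decomp x
    by_contra hne
    -- applying `∏_{j=1}^m (L_0 - h - j)`
    have hstep : ∀ M : ℕ, M ≤ m → ∃ z : ℕ → Verma ℂ c h,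
        (∀ k, z k ∈ degreePart ℂ (vac ℂ c h) k) ∧ eps c h (z 0) ≠ 0 ∧
        ∑ k ∈ Finset.range (m - M + 1), z k ∈ N := by
      intro M
      induction M with
      | zero =>
        intro _
        refine ⟨y, hy, ?_, hx⟩
        have h0 : eps c h (∑ k ∈ Finset.range (m + 1), y k) = eps c h (y 0) := by
          rw [map_sum, Finset.sum_range_succ']
          rw [Finset.sum_eq_zero, zero_add]
          intro k _
          exact eps_degree (Nat.succ_pos k) (hy (k + 1))
        rwa [h0] at hne
      | succ M ih =>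
        intro hM
        obtain ⟨z, hz, hz0, hzN⟩ := ih (by omega)
        set j : ℕ := m - M with hj
        have hj1 : m - (M + 1) + 1 = j := by omega
        have hj0 : 0 < j := by omega
        refine ⟨fun k => ((k : ℂ) - j) • z k, fun k => Submodule.smul_mem _ _ (hz k), ?_, ?_⟩
        · simp only [map_smul, smul_eq_mul]
          apply mul_ne_zero _ hz0
          push_cast
          have : (j : ℂ) ≠ 0 := by exact_mod_cast hj0.ne'
          simpa using this
        · rw [hj1]
          have h1 : uL ℂ 0 • (∑ k ∈ Finset.range (j + 1), z k) -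
              (h + j) • (∑ k ∈ Finset.range (j + 1), z k) ∈ N := by
            refine N.sub_mem (N.smul_mem _ hzN) ?_
            rw [← algebraMap_smul' (F := ℂ)]
            exact N.smul_mem _ hzN
          have h2 : uL ℂ 0 • (∑ k ∈ Finset.range (j + 1), z k) -
              (h + j) • (∑ k ∈ Finset.range (j + 1), z k) =
              ∑ k ∈ Finset.range j, ((k : ℂ) - j) • z k := by
            rw [Finset.smul_sum, Finset.smul_sum, ← Finset.sum_sub_distrib,
              Finset.sum_range_succ]
            have e : ∀ k, uL ℂ 0 • z k - (h + j) • z k = ((k : ℂ) - j) • z k := by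
              intro k
              rw [vacHW.L0 (hz k), ← sub_smul]
              congr 1
              ring
            simp only [e, sub_self, zero_smul, add_zero]
          rw [h2] at h1
          exact h1
    obtain ⟨z, hz, hz0, hzN⟩ := hstep m le_rfl
    rw [Nat.sub_self, zero_add, Finset.sum_range_one] at hzN
    obtain ⟨a, ha⟩ : ∃ a : ℂ, z 0 = a • vac ℂ c h := by
      have h0 := hz 0
      unfold degreePart at h0
      have hsub : {x | ∃ l : List ℕ, (∀ i ∈ l, 0 < i) ∧ l.sum = 0 ∧ x = mono ℂ l • vac ℂ c h} ⊆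
          {vac ℂ c h} := by
        rintro x ⟨l, hl, hs, rfl⟩
        rcases l with _ | ⟨i, l⟩
        · rw [mono_nil, one_smul]; rfl
        · exfalso
          have := hl i (by simp)
          simp at hs
          omega
      have h1 := Submodule.span_mono hsub h0
      obtain ⟨a, ha⟩ := Submodule.mem_span_singleton.1 h1
      exact ⟨a, ha.symm⟩
    have ha0 : a ≠ 0 := by
      rintro rfl
      rw [ha, zero_smul, map_zero] at hz0
      exact hz0 rfl
    apply hN
    apply eq_top_of_vac
    have h3 : algebraMap ℂ (UVir ℂ) a⁻¹ • z 0 ∈ N := N.smul_mem _ hzN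
    rw [algebraMap_smul', ha, smul_smul, inv_mul_cancel₀ ha0, one_smul] at h3
    exact h3
  intro x hx
  rw [mem_Rad]
  intro u
  exact key _ (N.smul_mem u hx)

theorem vac_notMem_Rad {c h : ℂ} : vac ℂ c h ∉ Rad c h := by
  intro hv
  have := eps_of_Rad hv
  rw [eps_vac] at this
  exact one_ne_zero this

theorem maxProper_eq_Rad (c h : ℂ) : maxProper c h = Rad c h := by
  apply le_antisymm
  · exact sSup_le fun N hN => proper_le_Rad hN
  · apply le_sSup
    intro htop
    apply vac_notMem_Rad (c := c) (h := h)
    rw [htop]; trivial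

/-- `M_h` is indeed proper. -/
theorem maxProper_ne_top (c h : ℂ) : maxProper c h ≠ ⊤ := by
  intro htop
  apply vac_notMem_Rad (c := c) (h := h)
  rw [← maxProper_eq_Rad, htop]; trivial

/-- The degree two part for `c = -2`, `h = -1/8` is one-dimensional. -/
theorem dimIrr_two : dimIrr (-2) (-1 / 8) 2 = 1 := by
  set c : ℂ := -2 with hc
  set h : ℂ := -1 / 8 with hh
  set v : Verma ℂ c h := vac ℂ c h with hv
  have H : HW c h v := vacHW
  have pos : ∀ n : ℤ, 0 < n → uL ℂ n • v = 0 := H.pos
  have zero : uL ℂ 0 • v = h • v := H.zero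
  -- commutators
  have c1 : uL ℂ 1 • uL ℂ (-1) • v = (2 * h) • v := by
    rw [uL_smul_comm, pos 1 one_pos, smul_zero, zero_add]
    have e : (1 : ℤ) + -1 = 0 := by norm_num
    rw [e, zero, smul_smul]
    simp [cen, binom3]
  have c0 : uL ℂ 0 • uL ℂ (-1) • v = (h + 1) • uL ℂ (-1) • v := by
    rw [uL_smul_comm, zero]
    have e : (0 : ℤ) + -1 = -1 := by norm_num
    rw [e]
    simp
    rw [smul_comm, add_smul, one_smul]
  have c11 : uL ℂ 1 • uL ℂ (-1) • uL ℂ (-1) • v = (4 * h + 2) • uL ℂ (-1) • v := by
    rw [uL_smul_comm, c1]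
    have e : (1 : ℤ) + -1 = 0 := by norm_num
    rw [e, c0, smul_comm]
    simp [cen, binom3]
    rw [smul_smul, ← add_smul]
    congr 1
    ring
  have c21 : uL ℂ 2 • uL ℂ (-1) • v = 0 := by
    rw [uL_smul_comm, pos 2 two_pos, smul_zero, zero_add]
    have e : (2 : ℤ) + -1 = 1 := by norm_num
    rw [e, pos 1 one_pos]
    simp
  have c211 : uL ℂ 2 • uL ℂ (-1) • uL ℂ (-1) • v = (6 * h) • v := by
    rw [uL_smul_comm, c21, smul_zero, zero_add]
    have e : (2 : ℤ) + -1 = 1 := by norm_num
    rw [e, c1]
    simp
    rw [smul_smul]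
    congr 1
    norm_num
  have c12 : uL ℂ 1 • uL ℂ (-2) • v = (3 : ℂ) • uL ℂ (-1) • v := by
    rw [uL_smul_comm, pos 1 one_pos, smul_zero, zero_add]
    have e : (1 : ℤ) + -2 = -1 := by norm_num
    rw [e]
    simp
  have c22 : uL ℂ 2 • uL ℂ (-2) • v = (4 * h + c / 2) • v := by
    rw [uL_smul_comm, pos 2 two_pos, smul_zero, zero_add]
    have e : (2 : ℤ) + -2 = 0 := by norm_num
    rw [e, zero, if_pos rfl, H.central, smul_smul, smul_smul, ← add_smul]
    congr 1
    simp [cen, binom3]
    norm_num
  -- the singular vector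
  set s : Verma ℂ c h := uL ℂ (-2) • v - (2 : ℂ) • uL ℂ (-1) • uL ℂ (-1) • v with hs
  have hm : ∀ l : List ℕ, (∀ i ∈ l, 0 < i) → l.sum = 2 → mono ℂ l • v ∈ degreePart ℂ v 2 :=
    fun l hl hsum => Submodule.subset_span ⟨l, hl, hsum, rfl⟩
  have hm2 : uL ℂ (-2) • v ∈ degreePart ℂ v 2 := by
    have := hm [2] (by simp) (by simp)
    simpa [mono_cons, mono_nil] using this
  have hm11 : uL ℂ (-1) • uL ℂ (-1) • v ∈ degreePart ℂ v 2 := by
    have := hm [1, 1] (by simp) (by simp)
    simpa [mono_cons, mono_nil, mul_smul] using this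
  have hsR : s ∈ Rad c h := by
    refine crit (k := 2) two_pos (sub_mem hm2 (Submodule.smul_mem _ _ hm11)) ?_
    intro n hn
    have hz : uL ℂ n • s = 0 := by
      rw [hs, smul_sub, smul_comm (uL ℂ n) (2 : ℂ)]
      rcases eq_or_lt_of_le (show 1 ≤ n by omega) with rfl | hn1
      · rw [c12, c11, smul_smul, ← sub_smul]
        have : (3 : ℂ) - 2 * (4 * h + 2) = 0 := by rw [hh]; norm_num
        rw [this, zero_smul]
      rcases eq_or_lt_of_le (show 2 ≤ n by omega) with rfl | hn2
      · rw [c22, c211, smul_smul, ← sub_smul]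
        have : (4 * h + c / 2) - 2 * (6 * h) = 0 := by rw [hh, hc]; norm_num
        rw [this, zero_smul]
      · have a1 : uL ℂ n • uL ℂ (-2) • v = 0 := by
          rw [uL_smul_comm, pos n hn, smul_zero, zero_add, if_neg (by omega), zero_smul, add_zero,
            pos _ (by omega), smul_zero]
        have a2 : uL ℂ n • uL ℂ (-1) • v = 0 := by
          rw [uL_smul_comm, pos n hn, smul_zero, zero_add, if_neg (by omega), zero_smul, add_zero,
            pos _ (by omega), smul_zero]
        have a3 : uL ℂ (n + -1) • uL ℂ (-1) • v = 0 := by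
          rw [uL_smul_comm, pos _ (by omega), smul_zero, zero_add, if_neg (by omega), zero_smul,
            add_zero, pos _ (by omega), smul_zero]
        have a4 : uL ℂ n • uL ℂ (-1) • uL ℂ (-1) • v = 0 := by
          rw [uL_smul_comm, a2, smul_zero, zero_add, a3, smul_zero, zero_add, if_neg (by omega),
            zero_smul]
        rw [a1, a4, smul_zero, sub_zero]
    rw [hz]; exact zero_mem _
  -- in the quotient
  set q : Verma ℂ c h →ₗ[UVir ℂ] Irr c h := (maxProper c h).mkQ with hq
  have hker : ∀ x, q x = 0 ↔ x ∈ Rad c h := by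
    intro x
    rw [hq, Submodule.mkQ_apply, Submodule.Quotient.mk_eq_zero, maxProper_eq_Rad]
  have hqsmul : ∀ (a : ℂ) (x : Verma ℂ c h), q (a • x) = a • q x := by
    intro a x
    rfl
  set t : Irr c h := q (uL ℂ (-1) • uL ℂ (-1) • v) with ht
  have hspan : degreePart ℂ (ivac c h) 2 = Submodule.span ℂ {t} := by
    apply le_antisymm
    · refine Submodule.span_le.2 ?_
      rintro x ⟨l, hl, hsum, rfl⟩
      have hiv : ivac c h = q v := rfl
      rw [hiv, ← map_smul]
      rcases l with _ | ⟨i, _ | ⟨j, l⟩⟩
      · simp at hsum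
      · simp at hsum
        subst hsum
        have e : q (mono ℂ [2] • v) = (2 : ℂ) • t := by
          have h1 : mono ℂ [2] • v = uL ℂ (-2) • v := by simp [mono_cons, mono_nil]
          have h2 : uL ℂ (-2) • v = s + (2 : ℂ) • uL ℂ (-1) • uL ℂ (-1) • v := by
            rw [hs]; abel
          rw [h1, h2, map_add, (hker s).2 hsR, zero_add, hqsmul]
        rw [e]
        exact Submodule.smul_mem _ _ (Submodule.mem_span_singleton_self t)
      · have hi := hl i (by simp)
        have hj := hl j (by simp)
        simp at hsum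
        have hi1 : i = 1 := by omega
        have hj1 : j = 1 := by omega
        have hl0 : l = [] := by
          rcases l with _ | ⟨k, l⟩
          · rfl
          · exfalso
            have := hl k (by simp)
            simp at hsum
            omega
        subst hi1 hj1 hl0
        have e : q (mono ℂ [1, 1] • v) = t := by
          rw [ht]
          congr 1
          simp [mono_cons, mono_nil, mul_smul]
        rw [e]
        exact Submodule.mem_span_singleton_self t
    · refine Submodule.span_le.2 ?_
      rintro x hx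
      rw [Set.mem_singleton_iff] at hx
      rw [hx]
      refine Submodule.subset_span ⟨[1, 1], by simp, by simp, ?_⟩
      have hiv : ivac c h = q v := rfl
      rw [hiv, ← map_smul, ht]
      congr 1
      simp [mono_cons, mono_nil, mul_smul]
  have ht0 : t ≠ 0 := by
    intro h0
    rw [ht, hker] at h0
    have h1 : uL ℂ 1 • uL ℂ 1 • uL ℂ (-1) • uL ℂ (-1) • v ∈ Rad c h :=
      (Rad c h).smul_mem _ ((Rad c h).smul_mem _ h0)
    rw [c11, smul_comm (uL ℂ 1), c1, smul_smul] at h1
    have h2 := eps_of_Rad h1
    rw [map_smul, hv, eps_vac, smul_eq_mul, mul_one, hh] at h2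
    norm_num at h2
  unfold dimIrr
  rw [hspan]
  exact finrank_span_singleton ht0

end Pool.Agent.W99.Mon
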