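import Mathlib
import Pool.Agent.W99.Mon.IrrDefs
import Pool.Agent.W99.Mon.Vir

/-!
# Existence of irreducible highest weight modules
-/

set_option autoImplicit false

namespace Pool.Agent.W99.Mon

/-- Passing to a quotient. -/
theorem irreducible_quotient {M : Type} [AddCommGroup M] [Module ℂ M] {c h : ℂ}
    {A : ℤ → Module.End ℂ M} {v : M} (N : Submodule ℂ M) (hvir : IsVirasoro c A)
    (hpos : ∀ n : ℤ, 0 < n → A n v = 0) (hzero : A 0 v = h • v)
    (hN : ∀ n, ∀ x ∈ N, A n x ∈ N) (hv : v ∉ N)
    (hmax : ∀ W : Submodule ℂ M, (∀ n, ∀ x ∈ W, A n x ∈ W) → N ≤ W → W ≤ N ∨ W = ⊤) :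
    IsIrreducibleHW c h (fun n => N.mapQ N (A n) (hN n)) (N.mkQ v) := by
  refine ⟨?_, ?_, ?_, ?_, ?_⟩
  · intro m n
    apply LinearMap.ext
    intro x
    obtain ⟨y, rfl⟩ := N.mkQ_surjective x
    have := congrArg (fun T : Module.End ℂ M => N.mkQ (T y)) (hvir m n)
    split_ifs at this ⊢ <;> simpa using this
  · intro h0
    rw [Submodule.mkQ_apply, Submodule.Quotient.mk_eq_zero] at h0
    exact hv h0
  · intro n hn
    show N.mkQ (A n v) = 0
    rw [hpos n hn, map_zero]
  · show N.mkQ (A 0 v) = h • N.mkQ v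
    rw [hzero, map_smul]
  · intro W hW
    have h1 : ∀ n, ∀ x ∈ W.comap N.mkQ, A n x ∈ W.comap N.mkQ := by
      intro n x hx
      exact hW n _ hx
    have h2 : N ≤ W.comap N.mkQ := by
      intro x hx
      rw [Submodule.mem_comap, Submodule.mkQ_apply, (Submodule.Quotient.mk_eq_zero N).2 hx]
      exact zero_mem _
    rcases hmax _ h1 h2 with h3 | h3
    · left
      rw [Submodule.eq_bot_iff]
      intro x hx
      obtain ⟨y, rfl⟩ := N.mkQ_surjective x
      have := h3 (show y ∈ W.comap N.mkQ from hx)
      rw [Submodule.mkQ_apply, (Submodule.Quotient.mk_eq_zero N).2 this]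
    · right
      rw [Submodule.eq_top_iff']
      intro x
      obtain ⟨y, rfl⟩ := N.mkQ_surjective x
      have : y ∈ W.comap N.mkQ := by rw [h3]; trivial
      exact this

open Pool.Agent.Helper855.Virasoro

/-- The operators on the Verma module. -/
noncomputable def vOp (c h : ℂ) (n : ℤ) : Module.End ℂ (Verma ℂ c h) :=
  { toFun := fun x => uL ℂ n • x
    map_add' := fun x y => smul_add _ x y
    map_smul' := fun _ _ => smul_comm _ _ _ }

theorem vOp_apply (c h : ℂ) (n : ℤ) (x : Verma ℂ c h) : vOp c h n x = uL ℂ n • x := rfl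

/-- There is an irreducible highest weight module with central charge `c` and highest weight
`h`. -/
theorem exists_irreducible (c h : ℂ) : ∃ (V : Type) (_ : AddCommGroup V) (_ : Module ℂ V)
    (L : ℤ → Module.End ℂ V) (v : V), IsIrreducibleHW c h L v := by
  refine ⟨_, _, _, _, _, irreducible_quotient (A := vOp c h) (v := vac ℂ c h) (c := c) (h := h)
    ((Rad c h).restrictScalars ℂ) ?_ ?_ ?_ ?_ ?_ ?_⟩
  · intro m n
    apply LinearMap.ext
    intro x
    simp only [LinearMap.sub_apply, Module.End.mul_apply, LinearMap.add_apply,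
      LinearMap.smul_apply, Module.End.one_apply, vOp_apply]
    rw [uL_smul_comm, C_smul, smul_smul _ c x, sub_eq_iff_eq_add', add_assoc]
    congr 3
    rw [ite_mul, zero_mul]
    split_ifs with h0
    · have h6 := congrArg (fun z : ℤ => (z : ℂ)) (six_binom3 m)
      simp only [Int.cast_mul, Int.cast_ofNat, Int.cast_add, Int.cast_one, Int.cast_sub] at h6
      unfold cen
      linear_combination (c / 12) * h6
    · rfl
  · intro n hn
    exact vac_pos hn
  · exact vac_zero
  · intro n x hx
    exact (Rad c h).smul_mem _ hx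
  · exact vac_notMem_Rad
  · intro W hW hNW
    have hst : ∀ u : UVir ℂ, ∀ z ∈ W, u • z ∈ W := fun u =>
      stable_of W hW (fun z hz => by rw [C_smul]; exact W.smul_mem _ hz) u
    let W' : Submodule (UVir ℂ) (Verma ℂ c h) :=
      { carrier := W
        add_mem' := fun hx hy => W.add_mem hx hy
        zero_mem' := W.zero_mem
        smul_mem' := fun u z hz => hst u z hz }
    by_cases h0 : W' = ⊤
    · right
      rw [Submodule.eq_top_iff']
      intro x
      have : x ∈ W' := by rw [h0]; trivial
      exact this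
    · left
      intro x hx
      exact proper_le_Rad h0 (show x ∈ W' from hx)

end Pool.Agent.W99.Mon
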