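import Mathlib
import Pool.Agent.W99.Mon.IrrDefs
import Pool.Agent.W99.Mon.Vir

/-!
# The degree two part of the irreducible module with `c = -2`, `h = -1/8`
-/

set_option autoImplicit false

namespace Pool.Agent.W99.Mon

section

variable {V : Type} [AddCommGroup V] [Module ℂ V] {c : ℂ} {L : ℤ → Module.End ℂ V}

theorem IsVirasoro.comm (H : IsVirasoro c L) (m n : ℤ) (x : V) :
    L m (L n x) = L n (L m x) + ((m - n : ℤ) : ℂ) • L (m + n) x +
      (if m + n = 0 then c * ((m : ℂ) ^ 3 - m) / 12 else 0) • x := by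
  have h := congrArg (fun T : Module.End ℂ V => T x) (H m n)
  simp only [LinearMap.sub_apply, Module.End.mul_apply, LinearMap.add_apply, LinearMap.smul_apply,
    Module.End.one_apply] at h
  rw [sub_eq_iff_eq_add'.1 h, add_assoc]

/-- The vector `L_{-i_1} ⋯ L_{-i_r} v`. -/
def wd (L : ℤ → Module.End ℂ V) (v : V) : List ℕ → V
  | [] => v
  | i :: l => L (-(i : ℤ)) (wd L v l)

/-- The degree `k` part, for integers `k`. -/
def dg (L : ℤ → Module.End ℂ V) (v : V) (k : ℤ) : Submodule ℂ V :=
  Submodule.span ℂ {x | ∃ l : List ℕ, (∀ i ∈ l, 0 < i) ∧ (l.sum : ℤ) = k ∧ x = wd L v l}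

theorem wd_mem {v : V} {l : List ℕ} (hl : ∀ i ∈ l, 0 < i) : wd L v l ∈ dg L v l.sum :=
  Submodule.subset_span ⟨l, hl, rfl, rfl⟩

theorem dg_cons {v x : V} {k : ℤ} {i : ℕ} (hi : 0 < i) (hx : x ∈ dg L v k) :
    L (-(i : ℤ)) x ∈ dg L v (k + i) := by
  unfold dg at hx
  induction hx using Submodule.span_induction with
  | mem y hy =>
    obtain ⟨l, hl, rfl, rfl⟩ := hy
    have h := wd_mem (L := L) (v := v) (l := i :: l) (by simpa using ⟨hi, hl⟩)
    have e : ((i :: l).sum : ℤ) = (l.sum : ℤ) + i := by
      rw [List.sum_cons]; push_cast; ring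
    rw [e] at h
    exact h
  | zero => rw [map_zero]; exact zero_mem _
  | add y z _ _ hy hz => rw [map_add]; exact add_mem hy hz
  | smul a y _ hy => rw [map_smul]; exact Submodule.smul_mem _ _ hy

theorem dg_act (H : IsVirasoro c L) {v : V} {h : ℂ} (hpos : ∀ n : ℤ, 0 < n → L n v = 0)
    (hzero : L 0 v = h • v) : ∀ (l : List ℕ), (∀ i ∈ l, 0 < i) → ∀ n : ℤ,
      L n (wd L v l) ∈ dg L v (l.sum - n) := by
  intro l
  induction l with
  | nil =>
    intro _ n
    have hv : v ∈ dg L v 0 := by
      have := wd_mem (L := L) (v := v) (l := []) (by simp)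
      simpa [wd] using this
    show L n v ∈ _
    rcases lt_trichotomy n 0 with hn | rfl | hn
    · obtain ⟨i, rfl⟩ : ∃ i : ℕ, n = -(i : ℤ) := ⟨(-n).toNat, by omega⟩
      have := dg_cons (i := i) (by omega) hv
      simpa using this
    · rw [hzero]
      simpa using Submodule.smul_mem _ h hv
    · rw [hpos n hn]; exact zero_mem _
  | cons i l ih =>
    intro hl n
    have hi : 0 < i := hl i (by simp)
    have hl' : ∀ j ∈ l, 0 < j := fun j hj => hl j (by simp [hj])
    have hy := wd_mem (L := L) (v := v) hl'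
    show L n (L (-(i : ℤ)) (wd L v l)) ∈ _
    rw [H.comm, List.sum_cons]
    refine add_mem (add_mem ?_ ?_) ?_
    · have := dg_cons hi (ih hl' n)
      convert this using 2
      push_cast; ring
    · refine Submodule.smul_mem _ _ ?_
      have := ih hl' (n + -(i : ℤ))
      convert this using 2
      push_cast; ring
    · by_cases h0 : n + -(i : ℤ) = 0
      · refine Submodule.smul_mem _ _ ?_
        convert hy using 2
        push_cast; linarith
      · rw [if_neg h0, zero_smul]; exact zero_mem _

theorem dg_L0 (H : IsVirasoro c L) {v : V} {h : ℂ} (hzero : L 0 v = h • v) {k : ℤ} {x : V}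
    (hx : x ∈ dg L v k) : L 0 x = (h + k) • x := by
  unfold dg at hx
  induction hx using Submodule.span_induction with
  | mem y hy =>
    obtain ⟨l, hl, rfl, rfl⟩ := hy
    clear hl
    induction l with
    | nil => simpa [wd] using hzero
    | cons i l ih =>
      show L 0 (L (-(i : ℤ)) (wd L v l)) = _ • L (-(i : ℤ)) (wd L v l)
      rw [H.comm, ih, map_smul]
      have e : (0 : ℤ) + -(i : ℤ) = -(i : ℤ) := by ring
      rw [e]
      have e2 : (if -(i : ℤ) = 0 then c * (((0 : ℤ) : ℂ) ^ 3 - ((0 : ℤ) : ℂ)) / 12 else 0) = 0 := by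
        split_ifs <;> simp
      rw [e2, zero_smul, add_zero, ← add_smul]
      congr 1
      rw [List.sum_cons]
      push_cast; ring
  | zero => simp
  | add y z _ _ hy hz => rw [map_add, smul_add, hy, hz]
  | smul a y _ hy => rw [map_smul, hy, smul_comm]

/-- In an irreducible module the degree parts of a nonzero highest weight vector span. -/
theorem dg_top (H : IsVirasoro c L)
    (hirr : ∀ W : Submodule ℂ V, (∀ n : ℤ, ∀ w ∈ W, L n w ∈ W) → W = ⊥ ∨ W = ⊤)
    {v : V} {h : ℂ} (hpos : ∀ n : ℤ, 0 < n → L n v = 0) (hzero : L 0 v = h • v) (hv : v ≠ 0) :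
    ⨆ k : ℤ, dg L v k = ⊤ := by
  set Z : Submodule ℂ V := ⨆ k : ℤ, dg L v k with hZ
  have hle : ∀ k, dg L v k ≤ Z := fun k => le_iSup (dg L v) k
  have hstab : ∀ n : ℤ, ∀ z ∈ Z, L n z ∈ Z := by
    intro n z hz
    rw [hZ] at hz
    induction hz using Submodule.iSup_induction' with
    | mem k y hy =>
      unfold dg at hy
      induction hy using Submodule.span_induction with
      | mem y hy =>
        obtain ⟨l, hl, _, rfl⟩ := hy
        exact hle _ (dg_act H hpos hzero l hl n)
      | zero => rw [map_zero]; exact zero_mem _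
      | add y z _ _ hy hz => rw [map_add]; exact add_mem hy hz
      | smul a y _ hy => rw [map_smul]; exact Submodule.smul_mem _ _ hy
    | zero => rw [map_zero]; exact zero_mem _
    | add y z _ _ hy hz => rw [map_add]; exact add_mem hy hz
  have hvZ : v ∈ Z := by
    have := wd_mem (L := L) (v := v) (l := []) (by simp)
    exact hle _ this
  rcases hirr Z hstab with h1 | h1
  · exfalso
    rw [h1, Submodule.mem_bot] at hvZ
    exact hv hvZ
  · exact h1

theorem dg_neg {v : V} {k : ℤ} (hk : k < 0) : dg L v k = ⊥ := by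
  unfold dg
  rw [Submodule.span_eq_bot]
  rintro x ⟨l, _, hs, rfl⟩
  exfalso
  have : (0 : ℤ) ≤ l.sum := Int.natCast_nonneg _
  omega

/-- The eigenspaces of `L_0` are the degree parts. -/
theorem eigenspace_eq (H : IsVirasoro c L)
    (hirr : ∀ W : Submodule ℂ V, (∀ n : ℤ, ∀ w ∈ W, L n w ∈ W) → W = ⊥ ∨ W = ⊤)
    {v : V} {h : ℂ} (hpos : ∀ n : ℤ, 0 < n → L n v = 0) (hzero : L 0 v = h • v) (hv : v ≠ 0)
    (k : ℤ) : Module.End.eigenspace (L 0) (h + k) = dg L v k := by
  have hle : ∀ j : ℤ, dg L v j ≤ Module.End.eigenspace (L 0) (h + j) := by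
    intro j x hx
    rw [Module.End.mem_eigenspace_iff]
    exact dg_L0 H hzero hx
  apply le_antisymm _ (hle k)
  intro x hx
  have hinj : Function.Injective (fun j : ℤ => h + (j : ℂ)) := by
    intro a b hab
    simpa using hab
  have hind : iSupIndep (fun j : ℤ => Module.End.eigenspace (L 0) (h + (j : ℂ))) :=
    (Module.End.eigenspaces_iSupIndep (L 0)).comp hinj
  have hx' : x ∈ ⨆ j : ℤ, dg L v j := by
    rw [dg_top H hirr hpos hzero hv]; trivial
  have hsplit : (⨆ j : ℤ, dg L v j) ≤ dg L v k ⊔ ⨆ (j : ℤ) (_ : j ≠ k), dg L v j := by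
    apply iSup_le
    intro j
    by_cases hj : j = k
    · subst hj; exact le_sup_left
    · exact le_sup_of_le_right (le_iSup₂_of_le j hj le_rfl)
  obtain ⟨y, hy, z, hz, rfl⟩ := Submodule.mem_sup.1 (hsplit hx')
  have hz1 : z ∈ ⨆ (j : ℤ) (_ : j ≠ k), Module.End.eigenspace (L 0) (h + (j : ℂ)) := by
    refine (iSup₂_mono fun j _ => hle j) hz
  have hz2 : z ∈ Module.End.eigenspace (L 0) (h + (k : ℂ)) := by
    have := Submodule.sub_mem _ hx (hle k hy)
    rwa [add_sub_cancel_left] at this
  have hz0 : z = 0 := by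
    have := (hind k).le_bot ⟨hz2, hz1⟩
    simpa using this
  rw [hz0, add_zero]
  exact hy

end

/-- The degree two part of an irreducible highest weight module with `c = -2`, `h = -1/8` has
dimension one. -/
theorem finrank_degree_two {V : Type} [AddCommGroup V] [Module ℂ V] {L : ℤ → Module.End ℂ V}
    {v : V} (H : IsIrreducibleHW (-2) (-1 / 8) L v) :
    Module.finrank ℂ (Module.End.eigenspace (L 0) (-1 / 8 + 2)) = 1 := by
  obtain ⟨hvir, hv, pos, zero, hirr⟩ := H
  have c1 : L 1 (L (-1) v) = (-1 / 4 : ℂ) • v := by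
    rw [hvir.comm, pos 1 one_pos, map_zero, zero_add]
    have e : (1 : ℤ) + -1 = 0 := by norm_num
    rw [e, zero, smul_smul]
    norm_num
  have c0 : L 0 (L (-1) v) = (7 / 8 : ℂ) • L (-1) v := by
    rw [hvir.comm, zero, map_smul]
    have e : (0 : ℤ) + -1 = -1 := by norm_num
    rw [e]
    simp
    module
  have c11 : L 1 (L (-1) (L (-1) v)) = (3 / 2 : ℂ) • L (-1) v := by
    rw [hvir.comm, c1, map_smul]
    have e : (1 : ℤ) + -1 = 0 := by norm_num
    rw [e, c0]
    simp
    module
  have c21 : L 2 (L (-1) v) = 0 := by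
    rw [hvir.comm, pos 2 two_pos, map_zero, zero_add]
    have e : (2 : ℤ) + -1 = 1 := by norm_num
    rw [e, pos 1 one_pos]
    simp
  have c211 : L 2 (L (-1) (L (-1) v)) = (-3 / 4 : ℂ) • v := by
    rw [hvir.comm, c21, map_zero, zero_add]
    have e : (2 : ℤ) + -1 = 1 := by norm_num
    rw [e, c1]
    simp
    rw [smul_smul]
    norm_num
  have c12 : L 1 (L (-2) v) = (3 : ℂ) • L (-1) v := by
    rw [hvir.comm, pos 1 one_pos, map_zero, zero_add]
    have e : (1 : ℤ) + -2 = -1 := by norm_num
    rw [e]
    simp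
  have c22 : L 2 (L (-2) v) = (-3 / 2 : ℂ) • v := by
    rw [hvir.comm, pos 2 two_pos, map_zero, zero_add]
    have e : (2 : ℤ) + -2 = 0 := by norm_num
    rw [e, zero, if_pos rfl, smul_smul, ← add_smul]
    congr 1
    norm_num
  set s : V := L (-2) v - (2 : ℂ) • L (-1) (L (-1) v) with hs
  have hspos : ∀ n : ℤ, 0 < n → L n s = 0 := by
    intro n hn
    rw [hs, map_sub, map_smul]
    rcases eq_or_lt_of_le (show 1 ≤ n by omega) with rfl | hn1
    · rw [c12, c11]
      module
    rcases eq_or_lt_of_le (show 2 ≤ n by omega) with rfl | hn2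
    · rw [c22, c211]
      module
    · have a1 : L n (L (-2) v) = 0 := by
        rw [hvir.comm, pos n hn, map_zero, zero_add, if_neg (by omega), zero_smul, add_zero,
          pos _ (by omega), smul_zero]
      have a2 : L n (L (-1) v) = 0 := by
        rw [hvir.comm, pos n hn, map_zero, zero_add, if_neg (by omega), zero_smul, add_zero,
          pos _ (by omega), smul_zero]
      have a3 : L (n + -1) (L (-1) v) = 0 := by
        rw [hvir.comm, pos _ (by omega), map_zero, zero_add, if_neg (by omega), zero_smul,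
          add_zero, pos _ (by omega), smul_zero]
      have a4 : L n (L (-1) (L (-1) v)) = 0 := by
        rw [hvir.comm, a2, map_zero, zero_add, a3, smul_zero, zero_add, if_neg (by omega),
          zero_smul]
      rw [a1, a4, smul_zero, sub_zero]
  have hdeg : ∀ l : List ℕ, (∀ i ∈ l, 0 < i) → (l.sum : ℤ) = 2 → wd L v l ∈ dg L v 2 :=
    fun l hl hsum => Submodule.subset_span ⟨l, hl, hsum, rfl⟩
  have hm2 : L (-2) v ∈ dg L v 2 := by
    have := hdeg [2] (by simp) (by simp)
    simpa [wd] using this
  have hm11 : L (-1) (L (-1) v) ∈ dg L v 2 := by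
    have := hdeg [1, 1] (by simp) (by simp)
    simpa [wd] using this
  have hs2 : s ∈ dg L v 2 := sub_mem hm2 (Submodule.smul_mem _ _ hm11)
  have hszero : L 0 s = (-1 / 8 + 2 : ℂ) • s := by
    have := dg_L0 hvir zero hs2
    rw [this]
    norm_num
  have hs0 : s = 0 := by
    by_contra hne
    have htop := dg_top hvir hirr hspos hszero hne
    have hind := Module.End.eigenspaces_iSupIndep (L 0)
    have hv1 : v ∈ Module.End.eigenspace (L 0) (-1 / 8) := by
      rw [Module.End.mem_eigenspace_iff]; exact zero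
    have hv2 : v ∈ ⨆ (μ : ℂ) (_ : μ ≠ -1 / 8), Module.End.eigenspace (L 0) μ := by
      have h1 : (⨆ k : ℤ, dg L s k) ≤
          ⨆ (μ : ℂ) (_ : μ ≠ -1 / 8), Module.End.eigenspace (L 0) μ := by
        apply iSup_le
        intro k
        rcases lt_or_ge k 0 with hk | hk
        · rw [dg_neg hk]; exact bot_le
        · have h2 : dg L s k ≤ Module.End.eigenspace (L 0) (-1 / 8 + 2 + k) := by
            intro x hx
            rw [Module.End.mem_eigenspace_iff]
            exact dg_L0 hvir hszero hx
          refine h2.trans (le_iSup₂_of_le (-1 / 8 + 2 + (k : ℂ)) ?_ le_rfl)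
          intro h3
          have h4 : ((2 + k : ℤ) : ℂ) = 0 := by push_cast; linear_combination h3
          have h5 : (2 + k : ℤ) = 0 := by exact_mod_cast h4
          omega
      apply h1
      rw [htop]; trivial
    have := (hind (-1 / 8)).le_bot ⟨hv1, hv2⟩
    exact hv (by simpa using this)
  -- the degree two part
  set t : V := L (-1) (L (-1) v) with ht
  have hspan : dg L v 2 = Submodule.span ℂ {t} := by
    apply le_antisymm
    · refine Submodule.span_le.2 ?_
      rintro x ⟨l, hl, hsum, rfl⟩
      have hsum' : l.sum = 2 := by exact_mod_cast hsum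
      clear hsum
      rcases l with _ | ⟨i, _ | ⟨j, l⟩⟩
      · simp at hsum'
      · simp only [List.sum_cons, List.sum_nil] at hsum'
        have hi2 : i = 2 := by omega
        subst hi2
        have e : wd L v [2] = (2 : ℂ) • t := by
          show L (-((2 : ℕ) : ℤ)) v = _
          have : L (-2) v = s + (2 : ℂ) • t := by rw [hs]; abel
          push_cast
          rw [this, hs0, zero_add]
        rw [e]
        exact Submodule.smul_mem _ _ (Submodule.mem_span_singleton_self t)
      · have hi := hl i (by simp)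
        have hj := hl j (by simp)
        simp only [List.sum_cons] at hsum'
        have hi1 : i = 1 := by omega
        have hj1 : j = 1 := by omega
        have hl0 : l = [] := by
          rcases l with _ | ⟨k, l⟩
          · rfl
          · exfalso
            have := hl k (by simp)
            simp only [List.sum_cons] at hsum'
            omega
        subst hi1 hj1 hl0
        exact Submodule.mem_span_singleton_self t
    · refine Submodule.span_le.2 ?_
      rintro x hx
      rw [Set.mem_singleton_iff] at hx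
      rw [hx]
      exact hm11
  have ht0 : t ≠ 0 := by
    intro h0
    have h1 : L 1 (L 1 t) = (-3 / 8 : ℂ) • v := by
      rw [ht, c11, map_smul, c1, smul_smul]
      norm_num
    rw [h0, map_zero, map_zero] at h1
    exact smul_ne_zero (by norm_num) hv h1.symm
  have he := eigenspace_eq hvir hirr pos zero hv 2
  push_cast at he
  rw [he, hspan]
  exact finrank_span_singleton ht0


end Pool.Agent.W99.Mon
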